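import Mathlib

set_option autoImplicit false

open Polynomial

namespace Pool.Agent.Lib.MP_680f50_nt

/-- `IsMultiplicityMatrix M`: every row of `M` ends in `0`, an entry that is at least `1` is
followed by itself minus one, and the entries of column `j` have sum at most `n - j`. -/
def IsMultiplicityMatrix {m n : ℕ} (M : Matrix (Fin m) (Fin (n + 1)) ℕ) : Prop :=
  (∀ i, M i (Fin.last n) = 0) ∧
  (∀ i, ∀ j : Fin n, 1 ≤ M i j.castSucc → M i j.succ = M i j.castSucc - 1) ∧
  (∀ j : Fin (n + 1), ∑ i, M i j ≤ n - (j : ℕ))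

/-- `Extends M L F`: the nonzero polynomial `F` has degree at least `n`, and for all `i` and
`j ≤ n` the point `L i` is a zero of the `j`-th derivative of `F` of multiplicity exactly
`M i j`. -/
def Extends {K : Type*} [Field K] {m n : ℕ} (M : Matrix (Fin m) (Fin (n + 1)) ℕ)
    (L : Fin m → K) (F : K[X]) : Prop :=
  F ≠ 0 ∧ n ≤ F.natDegree ∧
    ∀ i, ∀ j : Fin (n + 1), (derivative^[(j : ℕ)] F).rootMultiplicity (L i) = M i j

/-- The positions of the nonzero entries of `M`. -/
def zeroSet {m n : ℕ} (M : Matrix (Fin m) (Fin (n + 1)) ℕ) : Finset (Fin m × Fin (n + 1)) :=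
  Finset.univ.filter fun p => M p.1 p.2 ≠ 0

/-- The positions of the zero entries of `M`. -/
def nonzeroSet {m n : ℕ} (M : Matrix (Fin m) (Fin (n + 1)) ℕ) : Finset (Fin m × Fin (n + 1)) :=
  Finset.univ.filter fun p => M p.1 p.2 = 0

/-- The matrix of the conditions `F^(k) (L i) = 0`, `(i, k) ∈ S`, on polynomials `F` of degree at
most `N`, with respect to the basis `1, x, ..., x^N`. -/
def condMatrix {K : Type*} [Field K] {m n : ℕ} (L : Fin m → K) (N : ℕ)
    (S : Finset (Fin m × Fin (n + 1))) : Matrix S (Fin (N + 1)) K :=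
  fun s t => ((t : ℕ).descFactorial (s.1.2 : ℕ) : K) * L s.1.1 ^ ((t : ℕ) - (s.1.2 : ℕ))

section Basics

variable {K : Type*} [Field K]

/-- The functional `F ↦ F^(k)(a)`. -/
noncomputable def ev (a : K) (k : ℕ) : K[X] →ₗ[K] K :=
  (Polynomial.leval a).comp ((Polynomial.derivative (R := K)) ^ k)

lemma ev_apply (a : K) (k : ℕ) (F : K[X]) : ev a k F = (derivative^[k] F).eval a := by
  simp [ev, Module.End.pow_apply, Polynomial.leval_apply]

lemma ev_X_pow (a : K) (k t : ℕ) :
    ev a k (X ^ t : K[X]) = (t.descFactorial k : K) * a ^ (t - k) := by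
  rw [ev_apply, iterate_derivative_X_pow_eq_C_mul]
  simp

variable [CharZero K]

lemma iterate_derivative_ne_zero {F : K[X]} (hF : F ≠ 0) {k : ℕ} (hk : k ≤ F.natDegree) :
    derivative^[k] F ≠ 0 := by
  intro h
  have h1 := congrArg (fun p => Polynomial.coeff p (F.natDegree - k)) h
  simp only [coeff_iterate_derivative, coeff_zero] at h1
  rw [Nat.sub_add_cancel hk, nsmul_eq_mul] at h1
  rcases mul_eq_zero.mp h1 with h2 | h2
  · rw [Nat.cast_eq_zero, Nat.descFactorial_eq_zero_iff_lt] at h2
    omega
  · exact hF (leadingCoeff_eq_zero.mp h2)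

lemma extends_iff {m n : ℕ} {M : Matrix (Fin m) (Fin (n + 1)) ℕ} (hM : IsMultiplicityMatrix M)
    (L : Fin m → K) (F : K[X]) :
    Extends M L F ↔ F ≠ 0 ∧ n ≤ F.natDegree ∧
      (∀ p ∈ zeroSet M, ev (L p.1) (p.2 : ℕ) F = 0) ∧
      (∀ p ∈ nonzeroSet M, ev (L p.1) (p.2 : ℕ) F ≠ 0) := by
  constructor
  · rintro ⟨h0, h1, h2⟩
    refine ⟨h0, h1, ?_, ?_⟩
    · rintro ⟨i, j⟩ hp
      have hj : derivative^[(j : ℕ)] F ≠ 0 :=
        iterate_derivative_ne_zero h0 (le_trans (Nat.lt_succ_iff.mp j.2) h1)
      rw [ev_apply]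
      simp only [zeroSet, Finset.mem_filter, Finset.mem_univ, true_and] at hp
      have := h2 i j
      have h3 : 0 < (derivative^[(j : ℕ)] F).rootMultiplicity (L i) := by
        rw [this]; exact Nat.pos_of_ne_zero hp
      exact (rootMultiplicity_pos hj).mp h3
    · rintro ⟨i, j⟩ hp
      have hj : derivative^[(j : ℕ)] F ≠ 0 :=
        iterate_derivative_ne_zero h0 (le_trans (Nat.lt_succ_iff.mp j.2) h1)
      rw [ev_apply]
      simp only [nonzeroSet, Finset.mem_filter, Finset.mem_univ, true_and] at hp
      intro h3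
      have h4 := (rootMultiplicity_pos hj (x := L i)).mpr h3
      rw [h2 i j, hp] at h4
      exact absurd h4 (lt_irrefl _)
  · rintro ⟨h0, h1, h2, h3⟩
    refine ⟨h0, h1, ?_⟩
    intro i
    have key : ∀ d : ℕ, ∀ j : Fin (n + 1), (j : ℕ) + d = n →
        (derivative^[(j : ℕ)] F).rootMultiplicity (L i) = M i j := by
      intro d
      induction d with
      | zero =>
        intro j hj
        have hj' : j = Fin.last n := by
          apply Fin.ext; simpa using hj
        have hz : M i j = 0 := by rw [hj']; exact hM.1 i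
        have h4 := h3 (i, j) (by simp [nonzeroSet, hz])
        rw [hz]
        rw [ev_apply] at h4
        exact rootMultiplicity_eq_zero h4
      | succ d ih =>
        intro j hj
        by_cases hz : M i j = 0
        · have h4 := h3 (i, j) (by simp [nonzeroSet, hz])
          rw [hz]
          rw [ev_apply] at h4
          exact rootMultiplicity_eq_zero h4
        · have h4 := h2 (i, j) (by simp [zeroSet, hz])
          rw [ev_apply] at h4
          replace h4 : (derivative^[(j : ℕ)] F).IsRoot (L i) := h4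
          have hjn : (j : ℕ) < n := by omega
          obtain ⟨j', hj'⟩ : ∃ j' : Fin n, j'.castSucc = j := ⟨⟨j, hjn⟩, by apply Fin.ext; simp⟩
          have h5 := ih j'.succ (by
            rw [← hj'] at hj
            simp only [Fin.val_succ, Fin.val_castSucc] at hj ⊢
            omega)
          have h6 := hM.2.1 i j' (by rw [hj']; exact Nat.pos_of_ne_zero hz)
          rw [h6, hj'] at h5
          have h7 : (derivative^[((j'.succ : Fin (n + 1)) : ℕ)] F)
              = derivative (derivative^[(j : ℕ)] F) := by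
            rw [← Function.iterate_succ_apply' (f := derivative)]
            congr 1
            rw [← hj']
            simp
          rw [h7, derivative_rootMultiplicity_of_root h4] at h5
          have hjne : derivative^[(j : ℕ)] F ≠ 0 :=
            iterate_derivative_ne_zero h0 (le_trans (Nat.lt_succ_iff.mp j.2) h1)
          have h8 : 0 < rootMultiplicity (L i) (derivative^[(j : ℕ)] F) :=
            (rootMultiplicity_pos hjne (x := L i)).mpr h4
          have h9 := Nat.pos_of_ne_zero hz
          omega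
    intro j
    exact key (n - j) j (by have := j.2; omega)

/-- The polynomials of degree at most `N` as a linear combination of monomials. -/
noncomputable def toPoly (N : ℕ) (c : Fin (N + 1) → K) : K[X] := ∑ t : Fin (N + 1), C (c t) * X ^ (t : ℕ)

omit [CharZero K] in
lemma toPoly_natDegree_le (N : ℕ) (c : Fin (N + 1) → K) : (toPoly N c).natDegree ≤ N := by
  unfold toPoly
  apply natDegree_sum_le_of_forall_le
  intro t _
  refine le_trans (natDegree_C_mul_X_pow_le _ _) ?_
  have := t.2; omega

omit [CharZero K] in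
lemma exists_toPoly {N : ℕ} {F : K[X]} (hF : F.natDegree ≤ N) :
    toPoly N (fun t : Fin (N + 1) => F.coeff t) = F := by
  unfold toPoly
  rw [Fin.sum_univ_eq_sum_range (fun t => C (F.coeff t) * X ^ t) (N + 1)]
  exact (F.as_sum_range_C_mul_X_pow' (Nat.lt_succ_of_le hF)).symm

omit [CharZero K] in
lemma ev_toPoly (a : K) (k N : ℕ) (c : Fin (N + 1) → K) :
    ev a k (toPoly N c) = ∑ t : Fin (N + 1), ((t : ℕ).descFactorial k : K) * a ^ ((t : ℕ) - k) * c t := by
  unfold toPoly
  rw [map_sum]
  refine Finset.sum_congr rfl fun t _ => ?_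
  rw [← smul_eq_C_mul, map_smul, ev_X_pow, smul_eq_mul]
  ring

end Basics

end Pool.Agent.Lib.MP_680f50_nt
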