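import Mathlib
import Pool.Agent.Lib.MP_680f50_nt.Basic

set_option autoImplicit false

open Polynomial

namespace Pool.Agent.Lib.MP_680f50_nt

section Core

variable {K : Type*} [Field K] {m n : ℕ}

/-- the row of the condition matrix -/
def rowVec (L : Fin m → K) (N : ℕ) (s : Fin m × Fin (n + 1)) : Fin (N + 1) → K :=
  fun t => ((t : ℕ).descFactorial (s.2 : ℕ) : K) * L s.1 ^ ((t : ℕ) - (s.2 : ℕ))

lemma ev_toPoly_eq_rowVec (L : Fin m → K) (N : ℕ) (s : Fin m × Fin (n + 1)) (c : Fin (N + 1) → K) :
    ev (L s.1) (s.2 : ℕ) (toPoly N c) = ∑ t, rowVec L N s t * c t := by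
  rw [ev_toPoly]; rfl

/-- every polynomial of degree at most `N` satisfying the conditions in `S` satisfies the
condition `u` -/
def Dep (L : Fin m → K) (N : ℕ) (S : Finset (Fin m × Fin (n + 1))) (u : Fin m × Fin (n + 1)) :
    Prop :=
  ∀ F : K[X], F.natDegree ≤ N → (∀ s ∈ S, ev (L s.1) (s.2 : ℕ) F = 0) →
    ev (L u.1) (u.2 : ℕ) F = 0

lemma dep_iff (L : Fin m → K) (N : ℕ) (S : Finset (Fin m × Fin (n + 1)))
    (u : Fin m × Fin (n + 1)) :
    Dep L N S u ↔ rowVec L N u ∈ Submodule.span K (rowVec L N '' (S : Set (Fin m × Fin (n + 1)))) := by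
  constructor
  · intro h
    by_contra hu
    obtain ⟨f, hf1, hf2⟩ := Submodule.exists_le_ker_of_notMem hu
    -- vector of f
    let c : Fin (N + 1) → K := fun t => f (Pi.single t 1)
    have hfc : ∀ v : Fin (N + 1) → K, f v = ∑ t, v t * c t := by
      intro v
      have hv : v = ∑ t, v t • (Pi.single t (1 : K) : Fin (N + 1) → K) := by
        ext j
        simp [Finset.sum_apply, Pi.single_apply]
      conv_lhs => rw [hv]
      rw [map_sum]
      refine Finset.sum_congr rfl fun t _ => ?_
      rw [map_smul, smul_eq_mul]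
    apply hf1
    rw [hfc, ← ev_toPoly_eq_rowVec]
    apply h _ (toPoly_natDegree_le N c)
    intro s hs
    rw [ev_toPoly_eq_rowVec, ← hfc]
    exact hf2 (Submodule.subset_span ⟨s, hs, rfl⟩)
  · intro h F hF hS
    have hFc := exists_toPoly hF
    set c : Fin (N + 1) → K := fun t => F.coeff t with hc
    rw [← hFc, ev_toPoly_eq_rowVec]
    -- the functional v ↦ ∑ v t * c t vanishes on the span
    let f : (Fin (N + 1) → K) →ₗ[K] K := 
      { toFun := fun v => ∑ t, v t * c t
        map_add' := by intro v w; simp [add_mul, Finset.sum_add_distrib]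
        map_smul' := by intro a v; simp [Finset.mul_sum, mul_assoc] }
    have hle : Submodule.span K (rowVec L N '' (S : Set (Fin m × Fin (n + 1)))) ≤ LinearMap.ker f := by
      rw [Submodule.span_le]
      rintro _ ⟨s, hs, rfl⟩
      have := hS s hs
      rw [← hFc, ev_toPoly_eq_rowVec] at this
      exact this
    exact hle h

lemma rank_cond (L : Fin m → K) (N : ℕ) (S : Finset (Fin m × Fin (n + 1))) :
    (condMatrix L N S).rank =
      Module.finrank K (Submodule.span K (rowVec L N '' (S : Set (Fin m × Fin (n + 1))))) := by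
  rw [Matrix.rank_eq_finrank_span_row]
  have : Set.range (condMatrix L N S).row = rowVec L N '' (S : Set (Fin m × Fin (n + 1))) := by
    ext v
    constructor
    · rintro ⟨s, rfl⟩
      exact ⟨s.1, s.2, rfl⟩
    · rintro ⟨s, hs, rfl⟩
      exact ⟨⟨s, hs⟩, rfl⟩
  rw [this]

open Classical in
lemma rank_insert (L : Fin m → K) (N : ℕ) (S : Finset (Fin m × Fin (n + 1)))
    (u : Fin m × Fin (n + 1)) :
    1 + (condMatrix L N S).rank - (condMatrix L N (insert u S)).rank =
      if Dep L N S u then 1 else 0 := by
  rw [rank_cond, rank_cond, Finset.coe_insert, Set.image_insert_eq, Submodule.span_insert]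
  split_ifs with h
  · rw [dep_iff] at h
    have : Submodule.span K {rowVec L N u} ⊔
        Submodule.span K (rowVec L N '' (S : Set (Fin m × Fin (n + 1)))) =
        Submodule.span K (rowVec L N '' (S : Set (Fin m × Fin (n + 1)))) := by
      rw [sup_eq_right, Submodule.span_le]
      rintro _ rfl
      exact h
    rw [this]
    omega
  · rw [dep_iff] at h
    rw [sup_comm, Submodule.finrank_sup_span_singleton h]
    omega

lemma Dep.mono {L : Fin m → K} {N N' : ℕ} (h : N ≤ N') {S : Finset (Fin m × Fin (n + 1))}
    {u : Fin m × Fin (n + 1)} (hd : Dep L N' S u) : Dep L N S u :=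
  fun F hF hS => hd F (hF.trans h) hS

variable [CharZero K]

/-- Hermite interpolation: for `N + 1 ≥ m (n + 1)` the conditions are independent. -/
lemma hermite {L : Fin m → K} (hL : Function.Injective L) (v : Fin m × Fin (n + 1) → K) :
    ∃ F : K[X], F.natDegree < m * (n + 1) + 1 ∧ (F ≠ 0 → F.natDegree < m * (n + 1)) ∧
      ∀ s : Fin m × Fin (n + 1), ev (L s.1) (s.2 : ℕ) F = v s := by
  classical
  let f : degreeLT K (m * (n + 1)) →ₗ[K] (Fin m × Fin (n + 1) → K) :=
    { toFun := fun F s => ev (L s.1) (s.2 : ℕ) (F : K[X])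
      map_add' := by intro F G; ext s; simp
      map_smul' := by intro a F; ext s; simp }
  have hinj : Function.Injective f := by
    rw [← LinearMap.ker_eq_bot, LinearMap.ker_eq_bot']
    rintro ⟨F, hF⟩ hf
    have hf' : ∀ s : Fin m × Fin (n + 1), ev (L s.1) (s.2 : ℕ) F = 0 := fun s => congrFun hf s
    by_contra hne
    have hF0 : F ≠ 0 := fun h => hne (Subtype.ext h)
    have hmult : ∀ i, n < F.rootMultiplicity (L i) := by
      intro i
      rw [lt_rootMultiplicity_iff_isRoot_iterate_derivative hF0]
      intro k hk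
      have := hf' (i, ⟨k, Nat.lt_succ_of_le hk⟩)
      rw [ev_apply] at this
      exact this
    have hdeg : F.natDegree < m * (n + 1) := by
      rw [mem_degreeLT] at hF
      exact (natDegree_lt_iff_degree_lt hF0).mpr hF
    have h1 : ∑ i : Fin m, F.rootMultiplicity (L i) ≤ Multiset.card F.roots := by
      have h2 : ∑ i : Fin m, F.rootMultiplicity (L i)
          = ∑ a ∈ Finset.univ.image L, F.roots.count a := by
        rw [Finset.sum_image (fun i _ j _ h => hL h)]
        refine Finset.sum_congr rfl fun i _ => ?_
        rw [count_roots]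
      rw [h2, ← Multiset.sum_count_eq_card
        (s := Finset.univ.image L ∪ F.roots.toFinset) (m := F.roots) (by
          intro a ha
          exact Finset.mem_union_right _ (Multiset.mem_toFinset.mpr ha))]
      exact Finset.sum_le_sum_of_subset Finset.subset_union_left
    have h3 : m * (n + 1) ≤ ∑ i : Fin m, F.rootMultiplicity (L i) := by
      calc m * (n + 1) = ∑ _i : Fin m, (n + 1) := by simp
        _ ≤ _ := Finset.sum_le_sum fun i _ => hmult i
    have h4 := card_roots' F
    omega
  have hfr : Module.finrank K (degreeLT K (m * (n + 1))) =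
      Module.finrank K (Fin m × Fin (n + 1) → K) := by
    rw [(degreeLTEquiv K (m * (n + 1))).finrank_eq]
    simp
  have hfin : FiniteDimensional K (degreeLT K (m * (n + 1))) :=
    Module.Finite.equiv (degreeLTEquiv K (m * (n + 1))).symm
  obtain ⟨F, hF⟩ := (LinearMap.injective_iff_surjective_of_finrank_eq_finrank hfr).mp hinj v
  refine ⟨F, ?_, ?_, fun s => congrFun hF s⟩
  · by_cases h0 : (F : K[X]) = 0
    · rw [h0]; simp
    · have := mem_degreeLT.mp F.2
      rw [← natDegree_lt_iff_degree_lt h0] at this
      omega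
  · intro h0
    have := mem_degreeLT.mp F.2
    rw [← natDegree_lt_iff_degree_lt h0] at this
    exact this

lemma not_dep_of_le {L : Fin m → K} (hL : Function.Injective L) {N : ℕ}
    (hN : m * (n + 1) ≤ N + 1) {S : Finset (Fin m × Fin (n + 1))} {u : Fin m × Fin (n + 1)}
    (hu : u ∉ S) : ¬ Dep L N S u := by
  intro h
  obtain ⟨F, -, hF2, hF3⟩ := hermite hL (fun s => if s = u then (1 : K) else 0)
  have h1 := h F (by
    by_cases h0 : F = 0
    · rw [h0]; simp
    · have := hF2 h0; omega) (by
    intro s hs
    rw [hF3, if_neg]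
    rintro rfl
    exact hu hs)
  rw [hF3, if_pos rfl] at h1
  exact one_ne_zero h1

/-- least `N` for which `u` is not a consequence of `S` -/
noncomputable def gap (L : Fin m → K) (S : Finset (Fin m × Fin (n + 1)))
    (u : Fin m × Fin (n + 1)) : ℕ :=
  ∑ N ∈ Finset.range (m * (n + 1)),
    (1 + (condMatrix L N S).rank - (condMatrix L N (insert u S)).rank)

lemma gap_spec {L : Fin m → K} (hL : Function.Injective L)
    {S : Finset (Fin m × Fin (n + 1))} {u : Fin m × Fin (n + 1)} (hu : u ∉ S) :
    ∀ N, Dep L N S u ↔ N < gap L S u := by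
  classical
  have hex : ∃ N, ¬ Dep L N S u := ⟨m * (n + 1), not_dep_of_le hL (by omega) hu⟩
  have hiff : ∀ N, Dep L N S u ↔ N < Nat.find hex := by
    intro N
    constructor
    · intro h
      by_contra hlt
      push Not at hlt
      exact Nat.find_spec hex (h.mono hlt)
    · intro h
      have := Nat.find_min hex h
      push Not at this
      exact this
  have hle : Nat.find hex < m * (n + 1) := by
    have hpos : 0 < m := u.1.pos
    have h2 : 0 < m * (n + 1) := Nat.mul_pos hpos (Nat.succ_pos n)
    have h1 : ¬ Dep L (m * (n + 1) - 1) S u := not_dep_of_le hL (by omega) hu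
    have := Nat.find_min' hex h1
    omega
  have hgap : gap L S u = Nat.find hex := by
    unfold gap
    have : ∀ N ∈ Finset.range (m * (n + 1)),
        (1 + (condMatrix L N S).rank - (condMatrix L N (insert u S)).rank)
        = if N < Nat.find hex then 1 else 0 := by
      intro N _
      rw [rank_insert]
      simp only [hiff N]
    rw [Finset.sum_congr rfl this, ← Finset.sum_filter, Finset.sum_const, smul_eq_mul, mul_one]
    have h3 : Finset.filter (fun N => N < Nat.find hex) (Finset.range (m * (n + 1)))
        = Finset.range (Nat.find hex) := by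
      ext N
      simp only [Finset.mem_filter, Finset.mem_range]
      constructor
      · exact fun h => h.2
      · exact fun h => ⟨h.trans hle, h⟩
    rw [h3, Finset.card_range]
  rw [hgap]
  exact hiff

end Core

end Pool.Agent.Lib.MP_680f50_nt
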