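import Mathlib
import Pool.Agent.Lib.MP_680f50_nt.Core

set_option autoImplicit false

open Polynomial

namespace Pool.Agent.Lib.MP_680f50_nt

variable {K : Type*} [Field K] [CharZero K] {m n : ℕ}

theorem isLeast_exact {M : Matrix (Fin m) (Fin (n + 1)) ℕ} (hM : IsMultiplicityMatrix M)
    {L : Fin m → K} (hL : Function.Injective L) :
    IsLeast {N : ℕ | ∃ F : K[X], F.natDegree = N ∧ Extends M L F}
      (max n ((nonzeroSet M).sup fun u => gap L (zeroSet M) u)) := by
  classical
  have hdisj : ∀ u ∈ nonzeroSet M, u ∉ zeroSet M := by
    intro u hu hz
    simp only [nonzeroSet, zeroSet, Finset.mem_filter, Finset.mem_univ, true_and] at hu hz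
    exact hz hu
  constructor
  · set D := max n ((nonzeroSet M).sup fun u => gap L (zeroSet M) u) with hD
    -- the space of polynomials of degree at most `D` satisfying the zero conditions
    let V : Submodule K K[X] :=
      degreeLE K D ⊓ ⨅ s ∈ zeroSet M, LinearMap.ker (ev (L s.1) (s.2 : ℕ))
    have hV : ∀ F : K[X], F ∈ V ↔ F.natDegree ≤ D ∧ ∀ s ∈ zeroSet M, ev (L s.1) (s.2 : ℕ) F = 0 := by
      intro F
      simp only [V, Submodule.mem_inf, mem_degreeLE, Submodule.mem_iInf, LinearMap.mem_ker,
        natDegree_le_iff_degree_le]
    let bad : Finset (Submodule K V) :=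
      insert (LinearMap.ker ((lcoeff K D).comp V.subtype))
        ((nonzeroSet M).image fun u => LinearMap.ker ((ev (L u.1) (u.2 : ℕ)).comp V.subtype))
    have hnd : ∀ u ∈ nonzeroSet M, ¬ Dep L D (zeroSet M) u := by
      intro u hu h
      rw [gap_spec hL (hdisj u hu)] at h
      have h1 : gap L (zeroSet M) u ≤ D := by
        rw [hD]
        exact le_max_of_le_right (Finset.le_sup (f := fun u => gap L (zeroSet M) u) hu)
      omega
    have htop : (⊤ : Submodule K V) ∉ bad := by
      intro h
      rcases Finset.mem_insert.mp h with h | h
      · have hco : ∀ F ∈ V, F.coeff D = 0 := by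
          intro F hF
          have : (⟨F, hF⟩ : V) ∈ LinearMap.ker ((lcoeff K D).comp V.subtype) := by
            rw [← h]; trivial
          simpa using this
        -- `D` is attained
        have hatt : (∃ u ∈ nonzeroSet M, gap L (zeroSet M) u = D) ∨ (m = 0 ∧ D = n) := by
          rcases Nat.eq_zero_or_pos m with hm | hm
          · right
            refine ⟨hm, ?_⟩
            subst hm
            rw [hD, max_eq_left]
            apply Finset.sup_le
            intro u _
            exact absurd u.1.2 (Nat.not_lt_zero _)
          · left
            have hmem : ((⟨0, hm⟩ : Fin m), Fin.last n) ∈ nonzeroSet M := by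
              simp [nonzeroSet, hM.1]
            have hge : n ≤ gap L (zeroSet M) ((⟨0, hm⟩ : Fin m), Fin.last n) := by
              rcases Nat.eq_zero_or_pos n with h0 | h0
              · omega
              · have : Dep L (n - 1) (zeroSet M) ((⟨0, hm⟩ : Fin m), Fin.last n) := by
                  intro F hF _
                  rw [ev_apply]
                  have : derivative^[n] F = 0 := iterate_derivative_eq_zero (by omega)
                  simp [this]
                rw [gap_spec hL (hdisj _ hmem)] at this
                omega
            have hne : (nonzeroSet M).Nonempty := ⟨_, hmem⟩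
            obtain ⟨u, hu, hu2⟩ := Finset.exists_mem_eq_sup _ hne
              (fun u => gap L (zeroSet M) u)
            refine ⟨u, hu, ?_⟩
            rw [hD, max_eq_right]
            · exact hu2.symm
            · exact hge.trans (Finset.le_sup (f := fun u => gap L (zeroSet M) u) hmem)
        rcases hatt with ⟨u, hu, hgu⟩ | ⟨hm, hDn⟩
        · have hall : ∀ F : K[X], F.natDegree ≤ D →
              (∀ s ∈ zeroSet M, ev (L s.1) (s.2 : ℕ) F = 0) → F.coeff D = 0 :=
            fun F h1 h2 => hco F ((hV F).mpr ⟨h1, h2⟩)
          apply hnd u hu
          rcases Nat.eq_zero_or_pos D with h0 | h0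
          · intro F hF hF2
            have h3 := hall F hF hF2
            rw [h0] at hF h3
            have h4 : F = 0 := by
              rw [eq_C_of_natDegree_le_zero hF, h3, C_0]
            rw [h4]; simp
          · intro F hF hF2
            have h3 := hall F hF hF2
            have h4 : F.natDegree ≤ D - 1 := by
              rw [natDegree_le_iff_coeff_eq_zero]
              intro k hk
              rcases Nat.lt_or_ge D k with h5 | h5
              · exact coeff_eq_zero_of_natDegree_lt (by omega)
              · have : k = D := by omega
                rw [this]; exact h3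
            have h5 : Dep L (D - 1) (zeroSet M) u := by
              rw [gap_spec hL (hdisj u hu)]; omega
            exact h5 F h4 hF2
        · subst hm
          have : (X ^ D : K[X]) ∈ V := by
            rw [hV]
            refine ⟨natDegree_X_pow_le _, ?_⟩
            intro s _
            exact absurd s.1.2 (Nat.not_lt_zero _)
          have h3 := hco _ this
          rw [coeff_X_pow_self] at h3
          exact one_ne_zero h3
      · obtain ⟨u, hu, hu2⟩ := Finset.mem_image.mp h
        apply hnd u hu
        intro F h1 h2
        have : (⟨F, (hV F).mpr ⟨h1, h2⟩⟩ : V) ∈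
            LinearMap.ker ((ev (L u.1) (u.2 : ℕ)).comp V.subtype) := by
          rw [hu2]; trivial
        simpa using this
    have hne := Subspace.biUnion_ne_univ_of_top_notMem htop
    obtain ⟨F, hF⟩ := (Set.ne_univ_iff_exists_notMem _).mp hne
    simp only [Set.mem_iUnion, not_exists] at hF
    have hF1 : (F : K[X]).coeff D ≠ 0 := by
      intro h
      apply hF _ (Finset.mem_insert_self _ _)
      simpa using h
    have hF2 : ∀ u ∈ nonzeroSet M, ev (L u.1) (u.2 : ℕ) (F : K[X]) ≠ 0 := by
      intro u hu h
      apply hF _ (Finset.mem_insert_of_mem (Finset.mem_image_of_mem _ hu))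
      simpa using h
    obtain ⟨h3, h4⟩ := (hV _).mp F.2
    have h5 : (F : K[X]).natDegree = D := le_antisymm h3 (le_natDegree_of_ne_zero hF1)
    refine ⟨F, h5, ?_⟩
    rw [extends_iff hM]
    refine ⟨?_, ?_, h4, hF2⟩
    · intro h; rw [h] at hF1; simp at hF1
    · rw [h5, hD]; exact le_max_left _ _
  · rintro N ⟨F, rfl, hF⟩
    rw [extends_iff hM] at hF
    obtain ⟨_, h1, h2, h3⟩ := hF
    apply max_le h1
    apply Finset.sup_le
    intro u hu
    by_contra hlt
    push Not at hlt
    rw [← gap_spec hL (hdisj u hu)] at hlt
    exact h3 u hu (hlt F le_rfl h2)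

end Pool.Agent.Lib.MP_680f50_nt
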