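import Mathlib

set_option autoImplicit false

open Polynomial

namespace Pool.Agent.Lib.MP_680f50_nt

/-- Rolle's theorem for a finite set of zeros. -/
lemma rolle_finset (p : ℝ[X]) (s : Finset ℝ) : (∀ x ∈ s, p.eval x = 0) →
    ∃ s' : Finset ℝ, s.card ≤ s'.card + 1 ∧
      ∀ y ∈ s', (derivative p).eval y = 0 ∧ ∃ a ∈ s, ∃ b ∈ s, a < y ∧ y < b := by
  induction s using Finset.induction_on_max with
  | empty => intro _; exact ⟨∅, by simp, by simp⟩
  | insert a s ha ih =>
    intro hz
    rcases s.eq_empty_or_nonempty with rfl | hne
    · exact ⟨∅, by simp, by simp⟩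
    obtain ⟨s', hs1, hs2⟩ := ih (fun x hx => hz x (Finset.mem_insert_of_mem hx))
    set b := s.max' hne with hb
    have hbs : b ∈ s := s.max'_mem hne
    have hba : b < a := ha b hbs
    obtain ⟨c, hc, hc2⟩ := exists_deriv_eq_zero hba (f := fun x => p.eval x)
      p.continuous.continuousOn
      (by rw [hz b (Finset.mem_insert_of_mem hbs), hz a (Finset.mem_insert_self _ _)])
    have hcs : c ∉ s' := by
      intro h
      obtain ⟨_, _, _, b', hb', _, h2⟩ := hs2 c h
      have : b' ≤ b := s.le_max' b' hb'
      linarith [hc.1]
    refine ⟨insert c s', ?_, ?_⟩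
    · rw [Finset.card_insert_of_notMem hcs, Finset.card_insert_of_notMem]
      · omega
      · intro h; exact lt_irrefl _ (ha a h)
    · intro y hy
      rcases Finset.mem_insert.mp hy with rfl | hy
      · refine ⟨?_, b, Finset.mem_insert_of_mem hbs, a, Finset.mem_insert_self _ _, hc.1, hc.2⟩
        rw [Polynomial.deriv] at hc2
        exact hc2
      · obtain ⟨h1, a', ha', b', hb', h2⟩ := hs2 y hy
        exact ⟨h1, a', Finset.mem_insert_of_mem ha', b', Finset.mem_insert_of_mem hb', h2⟩

/-- Two point Birkhoff interpolation at `0` and `1` over the reals. -/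
lemma two_point (F : ℝ[X]) (A B : Finset ℕ) (hA : ∀ a ∈ A, (derivative^[a] F).eval 0 = 0)
    (hB : ∀ b ∈ B, (derivative^[b] F).eval 1 = 0)
    (h : ∀ j ≤ F.natDegree, j < (A.filter (· ≤ j)).card + (B.filter (· ≤ j)).card) : F = 0 := by
  by_contra hF
  have key : ∀ j ≤ F.natDegree, ∃ s : Finset ℝ, (∀ y ∈ s, 0 < y ∧ y < 1) ∧
      (∀ y ∈ s, (derivative^[j] F).eval y = 0) ∧
      (A.filter (· < j)).card + (B.filter (· < j)).card ≤ s.card + j := by
    intro j
    induction j with
    | zero => intro _; exact ⟨∅, by simp, by simp, by simp⟩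
    | succ j ih =>
      intro hj
      obtain ⟨s, h1, h2, h3⟩ := ih (by omega)
      let s1 : Finset ℝ := (s ∪ (if j ∈ A then {0} else ∅)) ∪ (if j ∈ B then {1} else ∅)
      have hs1z : ∀ y ∈ s1, (derivative^[j] F).eval y = 0 := by
        intro y hy
        simp only [s1, Finset.mem_union] at hy
        rcases hy with (hy | hy) | hy
        · exact h2 y hy
        · split_ifs at hy with hjA
          · rw [Finset.mem_singleton.mp hy]; exact hA j hjA
          · simp at hy
        · split_ifs at hy with hjB
          · rw [Finset.mem_singleton.mp hy]; exact hB j hjB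
          · simp at hy
      have hs1c : s1.card = s.card + (if j ∈ A then 1 else 0) + (if j ∈ B then 1 else 0) := by
        simp only [s1]
        rw [Finset.card_union_of_disjoint, Finset.card_union_of_disjoint]
        · split_ifs <;> simp
        · split_ifs
          · rw [Finset.disjoint_singleton_right]
            intro h; exact lt_irrefl _ (h1 0 h).1
          · simp
        · split_ifs with _ h5
          · rw [Finset.disjoint_singleton_right]
            intro h
            rcases Finset.mem_union.mp h with h | h
            · exact lt_irrefl _ (h1 1 h).2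
            · simp at h
          · simp
          · rw [Finset.disjoint_singleton_right]
            intro h
            rcases Finset.mem_union.mp h with h | h
            · exact lt_irrefl _ (h1 1 h).2
            · simp at h
          · simp
      have hs1i : ∀ y ∈ s1, 0 ≤ y ∧ y ≤ 1 := by
        intro y hy
        simp only [s1, Finset.mem_union] at hy
        rcases hy with (hy | hy) | hy
        · exact ⟨(h1 y hy).1.le, (h1 y hy).2.le⟩
        · split_ifs at hy with hjA
          · rw [Finset.mem_singleton.mp hy]; norm_num
          · simp at hy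
        · split_ifs at hy with hjB
          · rw [Finset.mem_singleton.mp hy]; norm_num
          · simp at hy
      obtain ⟨s', h4, h5⟩ := rolle_finset _ s1 hs1z
      refine ⟨s', ?_, ?_, ?_⟩
      · intro y hy
        obtain ⟨_, a, ha, b, hb, hay, hyb⟩ := h5 y hy
        exact ⟨lt_of_le_of_lt (hs1i a ha).1 hay, lt_of_lt_of_le hyb (hs1i b hb).2⟩
      · intro y hy
        rw [Function.iterate_succ_apply']
        exact (h5 y hy).1
      · have hsucc : ∀ C : Finset ℕ, (C.filter (· < j + 1)).card =
            (C.filter (· < j)).card + (if j ∈ C then 1 else 0) := by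
          intro C
          by_cases hjC : j ∈ C
          · rw [if_pos hjC]
            have : C.filter (· < j + 1) = insert j (C.filter (· < j)) := by
              ext x
              simp only [Finset.mem_filter, Finset.mem_insert]
              constructor
              · rintro ⟨hx, hx2⟩
                rcases Nat.lt_succ_iff_lt_or_eq.mp hx2 with h | h
                · exact Or.inr ⟨hx, h⟩
                · exact Or.inl h
              · rintro (rfl | ⟨hx, hx2⟩)
                · exact ⟨hjC, Nat.lt_succ_self _⟩
                · exact ⟨hx, by omega⟩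
            rw [this, Finset.card_insert_of_notMem (by simp)]
          · rw [if_neg hjC, add_zero]
            congr 1
            ext x
            simp only [Finset.mem_filter]
            constructor
            · rintro ⟨hx, hx2⟩
              refine ⟨hx, ?_⟩
              rcases Nat.lt_succ_iff_lt_or_eq.mp hx2 with h | h
              · exact h
              · exact absurd (h ▸ hx) hjC
            · rintro ⟨hx, hx2⟩
              exact ⟨hx, by omega⟩
        rw [hsucc A, hsucc B]
        omega
  obtain ⟨s, _, h2, h3⟩ := key F.natDegree le_rfl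
  have h4 := h F.natDegree le_rfl
  have hd : derivative^[F.natDegree] F = C ((F.natDegree.factorial : ℝ) * F.leadingCoeff) := by
    ext k
    rw [coeff_iterate_derivative, coeff_C]
    split_ifs with hk
    · subst hk
      simp [Nat.descFactorial_self]
    · rw [coeff_eq_zero_of_natDegree_lt (by omega)]; simp
  have hne : ∀ y : ℝ, (derivative^[F.natDegree] F).eval y ≠ 0 := by
    intro y
    rw [hd, eval_C]
    refine mul_ne_zero ?_ (leadingCoeff_ne_zero.mpr hF)
    exact_mod_cast Nat.factorial_ne_zero _
  have hs : s = ∅ := by
    rw [Finset.eq_empty_iff_forall_notMem]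
    intro y hy
    exact hne y (h2 y hy)
  have hlt : ∀ C : Finset ℕ, F.natDegree ∉ C →
      C.filter (· ≤ F.natDegree) = C.filter (· < F.natDegree) := by
    intro C hC
    ext x
    simp only [Finset.mem_filter]
    constructor
    · rintro ⟨hx, hx2⟩
      refine ⟨hx, lt_of_le_of_ne hx2 ?_⟩
      rintro rfl; exact hC hx
    · rintro ⟨hx, hx2⟩
      exact ⟨hx, hx2.le⟩
  rw [hlt A (fun h => hne 0 (hA _ h)), hlt B (fun h => hne 1 (hB _ h))] at h4
  rw [hs, Finset.card_empty] at h3
  omega

/-- Nonvanishing of the minors of the Pascal matrix, over the reals, in injective form. -/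
lemma pascal_real (S T : Finset ℕ)
    (h : ∀ j, (T.filter (· < j)).card ≤ (S.filter (· < j)).card) (c : ℕ → ℝ)
    (hc : ∀ k ∈ S, ∑ t ∈ T, c t * (t.descFactorial k : ℝ) = 0) : ∀ t ∈ T, c t = 0 := by
  classical
  set F : ℝ[X] := ∑ t ∈ T, C (c t) * X ^ t with hF
  have hcoeff : ∀ t, F.coeff t = if t ∈ T then c t else 0 := by
    intro t
    rw [hF, finsetSum_coeff]
    simp only [coeff_C_mul_X_pow]
    rw [Finset.sum_ite_eq]
  have hF0 : F = 0 := by
    apply two_point F ((Finset.range (F.natDegree + 1)).filter (fun t => t ∉ T)) S
    · intro a ha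
      have haT := (Finset.mem_filter.mp ha).2
      rw [← coeff_zero_eq_eval_zero, coeff_iterate_derivative, zero_add, hcoeff, if_neg haT]
      simp
    · intro k hk
      have : (derivative^[k] F).eval 1 = ∑ t ∈ T, c t * (t.descFactorial k : ℝ) := by
        rw [hF, iterate_derivative_sum, eval_finsetSum]
        refine Finset.sum_congr rfl fun t _ => ?_
        rw [iterate_derivative_C_mul, iterate_derivative_X_pow_eq_C_mul]
        simp
      rw [this]
      exact hc k hk
    · intro j hj
      have h1 := h (j + 1)
      simp only [Nat.lt_succ_iff] at h1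
      have h2 : (((Finset.range (F.natDegree + 1)).filter (fun t => t ∉ T)).filter (· ≤ j)).card
          + (T.filter (· ≤ j)).card = j + 1 := by
        rw [← Finset.card_union_of_disjoint]
        · have : ((Finset.range (F.natDegree + 1)).filter (fun t => t ∉ T)).filter (· ≤ j) ∪
              T.filter (· ≤ j) = Finset.range (j + 1) := by
            ext x
            simp only [Finset.mem_union, Finset.mem_filter, Finset.mem_range]
            constructor
            · rintro (⟨_, h⟩ | ⟨_, h⟩) <;> omega
            · intro hx
              by_cases hxT : x ∈ T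
              · right; exact ⟨hxT, by omega⟩
              · left; exact ⟨⟨by omega, hxT⟩, by omega⟩
          rw [this, Finset.card_range]
        · rw [Finset.disjoint_left]
          intro x hx hx2
          simp only [Finset.mem_filter] at hx hx2
          exact hx.1.2 hx2.1
      omega
  intro t ht
  have := hcoeff t
  rw [if_pos ht, hF0, coeff_zero] at this
  exact this.symm

/-- Nonvanishing of the minors of the Pascal matrix in characteristic zero. -/
lemma pascal_field {K : Type*} [Field K] [CharZero K] (S T : Finset ℕ)
    (h : ∀ j, (T.filter (· < j)).card ≤ (S.filter (· < j)).card) (c : ℕ → K)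
    (hc : ∀ k ∈ S, ∑ t ∈ T, c t * (t.descFactorial k : K) = 0) : ∀ t ∈ T, c t = 0 := by
  classical
  let B : Matrix S T ℤ := fun k t => ((t : ℕ).descFactorial (k : ℕ) : ℤ)
  have hdetR : ((B.transpose * B).map (Int.castRingHom ℝ)).det ≠ 0 := by
    intro h0
    obtain ⟨v, hv, hv2⟩ := Matrix.exists_mulVec_eq_zero_iff.mpr h0
    rw [Matrix.map_mul] at hv2
    set BR : Matrix S T ℝ := B.map (Int.castRingHom ℝ) with hBR
    have htr : (B.transpose).map (Int.castRingHom ℝ) = BR.transpose := rfl
    rw [htr, ← Matrix.mulVec_mulVec] at hv2
    have h1 : (BR.mulVec v) ⬝ᵥ (BR.mulVec v) = 0 := by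
      have h6 : v ⬝ᵥ (BR.transpose.mulVec (BR.mulVec v)) = 0 := by rw [hv2, dotProduct_zero]
      rwa [Matrix.dotProduct_mulVec, Matrix.vecMul_transpose] at h6
    have h2 : BR.mulVec v = 0 := dotProduct_self_eq_zero.mp h1
    apply hv
    ext t
    have h3 := pascal_real S T h (fun t => if ht : t ∈ T then v ⟨t, ht⟩ else 0) (by
      intro k hk
      have h4 := congrFun h2 ⟨k, hk⟩
      rw [Matrix.mulVec, dotProduct] at h4
      rw [← Finset.sum_coe_sort]
      simp only [Pi.zero_apply] at h4
      rw [← h4]
      refine Finset.sum_congr rfl fun t _ => ?_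
      have hBt : BR ⟨k, hk⟩ t = ((t : ℕ).descFactorial k : ℝ) := by
        change ((((t : ℕ).descFactorial k : ℕ) : ℤ) : ℝ) = _
        simp
      rw [hBt]
      simp [mul_comm])
    have := h3 t t.2
    simpa using this
  have hdetZ : (B.transpose * B).det ≠ 0 := by
    intro h0
    apply hdetR
    rw [← RingHom.mapMatrix_apply, ← RingHom.map_det, h0, map_zero]
  have hdetK : ((B.transpose * B).map (Int.castRingHom K)).det ≠ 0 := by
    rw [← RingHom.mapMatrix_apply, ← RingHom.map_det]
    simpa using hdetZ
  intro t ht
  by_contra hne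
  apply hdetK
  rw [← Matrix.exists_mulVec_eq_zero_iff]
  refine ⟨fun t => c t, fun h0 => hne (congrFun h0 ⟨t, ht⟩), ?_⟩
  rw [Matrix.map_mul, ← Matrix.mulVec_mulVec]
  have : (B.map (Int.castRingHom K)).mulVec (fun t => c t) = 0 := by
    ext k
    rw [Matrix.mulVec, dotProduct]
    have h5 := hc k k.2
    rw [← Finset.sum_coe_sort] at h5
    simp only [Pi.zero_apply]
    rw [← h5]
    refine Finset.sum_congr rfl fun t _ => ?_
    have hBt : (B.map (Int.castRingHom K)) k t = ((t : ℕ).descFactorial (k : ℕ) : K) := by
      change ((((t : ℕ).descFactorial (k : ℕ) : ℕ) : ℤ) : K) = _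
      simp
    rw [hBt]
    simp [mul_comm]
  rw [this, Matrix.mulVec_zero]

end Pool.Agent.Lib.MP_680f50_nt
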