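import Mathlib
import Pool.Agent.Lib.MP_680f50_nt.TwoPoint

set_option autoImplicit false

open Polynomial

namespace Pool.Agent.Lib.MP_680f50_nt

/-- the value of the condition `s = (node, order)` on the monomial `x^t` -/
noncomputable def e (L : ℕ → ℝ) (s : ℕ × ℕ) (t : ℕ) : ℝ :=
  (t.descFactorial s.2 : ℝ) * L s.1 ^ (t - s.2)

/-- the conditions in `S` are injective on polynomials with exponents in `T` -/
def Inj (L : ℕ → ℝ) (S : Finset (ℕ × ℕ)) (T : Finset ℕ) : Prop :=
  ∀ c : ℕ → ℝ, (∀ s ∈ S, ∑ t ∈ T, c t * e L s t = 0) → ∀ t ∈ T, c t = 0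

lemma inj_congr {L L' : ℕ → ℝ} {S : Finset (ℕ × ℕ)} {T : Finset ℕ}
    (h : ∀ s ∈ S, L s.1 = L' s.1) (hI : Inj L S T) : Inj L' S T := by
  intro c hc
  apply hI c
  intro s hs
  rw [← hc s hs]
  refine Finset.sum_congr rfl fun t _ => ?_
  rw [e, e, h s hs]

lemma surj_of_inj {L : ℕ → ℝ} {S : Finset (ℕ × ℕ)} {T : Finset ℕ} (hI : Inj L S T)
    (hcard : S.card = T.card) (v : ℕ × ℕ → ℝ) :
    ∃ c : ℕ → ℝ, (∀ t, t ∉ T → c t = 0) ∧ ∀ s ∈ S, ∑ t ∈ T, c t * e L s t = v s := by
  classical
  let f : (T → ℝ) →ₗ[ℝ] (S → ℝ) :=
    { toFun := fun c s => ∑ t : T, c t * e L s t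
      map_add' := by intro c d; ext s; simp [add_mul, Finset.sum_add_distrib]
      map_smul' := by intro a c; ext s; simp [Finset.mul_sum, mul_assoc] }
  have hinj : Function.Injective f := by
    rw [← LinearMap.ker_eq_bot, LinearMap.ker_eq_bot']
    intro c hc
    have h1 := hI (fun t => if ht : t ∈ T then c ⟨t, ht⟩ else 0) (by
      intro s hs
      have h2 : ∑ t : T, c t * e L s t = 0 := congrFun hc ⟨s, hs⟩
      rw [← Finset.sum_coe_sort, ← h2]
      refine Finset.sum_congr rfl fun t _ => ?_
      simp)
    ext t
    have := h1 t t.2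
    simpa using this
  have hfr : Module.finrank ℝ (T → ℝ) = Module.finrank ℝ (S → ℝ) := by simp [hcard]
  obtain ⟨c, hc⟩ := (LinearMap.injective_iff_surjective_of_finrank_eq_finrank hfr).mp hinj
    (fun s => v s)
  refine ⟨fun t => if ht : t ∈ T then c ⟨t, ht⟩ else 0, ?_, ?_⟩
  · intro t ht; simp [ht]
  · intro s hs
    have h2 : ∑ t : T, c t * e L s t = v s := congrFun hc ⟨s, hs⟩
    rw [← Finset.sum_coe_sort, ← h2]
    refine Finset.sum_congr rfl fun t _ => ?_
    simp

theorem generic_inj (m : ℕ) : ∀ (S : Finset (ℕ × ℕ)) (σ : ℕ × ℕ → ℕ), (∀ s ∈ S, s.1 < m) →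
    Set.InjOn σ (S : Set (ℕ × ℕ)) → (∀ s ∈ S, s.2 ≤ σ s) →
    ∃ L : ℕ → ℝ, Inj L S (S.image σ) := by
  classical
  induction m with
  | zero =>
    intro S σ hS _ _
    have : S = ∅ := by
      rw [Finset.eq_empty_iff_forall_notMem]
      intro s hs
      exact Nat.not_lt_zero _ (hS s hs)
    subst this
    exact ⟨fun _ => 0, by intro c _ t ht; simp at ht⟩
  | succ m ih =>
    intro S σ hS hσ hle
    set S' := S.filter (fun s => s.1 < m) with hS'
    set S₁ := S.filter (fun s => s.1 = m) with hS₁
    set D := S.image σ with hD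
    set D' := S'.image σ with hD'
    set T₀ := S₁.image σ with hT₀
    have hS'S : S' ⊆ S := Finset.filter_subset _ _
    have hS₁S : S₁ ⊆ S := Finset.filter_subset _ _
    have hunion : S' ∪ S₁ = S := by
      ext s
      simp only [hS', hS₁, Finset.mem_union, Finset.mem_filter]
      constructor
      · rintro (h | h) <;> exact h.1
      · intro h
        have := hS s h
        rcases Nat.lt_succ_iff_lt_or_eq.mp this with h1 | h1
        · exact Or.inl ⟨h, h1⟩
        · exact Or.inr ⟨h, h1⟩
    have hdisjS : Disjoint S' S₁ := by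
      rw [Finset.disjoint_left]
      intro s h1 h2
      have h3 := (Finset.mem_filter.mp h1).2
      have h4 := (Finset.mem_filter.mp h2).2
      omega
    have hDu : D' ∪ T₀ = D := by
      rw [hD', hT₀, ← Finset.image_union, hunion]
    have hDd : Disjoint D' T₀ := by
      rw [Finset.disjoint_left]
      intro t h1 h2
      obtain ⟨s1, hs1, rfl⟩ := Finset.mem_image.mp h1
      obtain ⟨s2, hs2, h3⟩ := Finset.mem_image.mp h2
      have := hσ (hS₁S hs2) (hS'S hs1) h3
      subst this
      exact (Finset.disjoint_left.mp hdisjS hs1) hs2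
    have hT₀D : T₀ ⊆ D := hDu ▸ Finset.subset_union_right
    have hD'eq : D \ T₀ = D' := by
      rw [← hDu, Finset.union_sdiff_right]
      exact Finset.sdiff_eq_self_of_disjoint hDd
    have hcardS' : S'.card = D'.card :=
      (Finset.card_image_of_injOn (hσ.mono (by exact_mod_cast hS'S))).symm
    have hcardS₁ : S₁.card = T₀.card :=
      (Finset.card_image_of_injOn (hσ.mono (by exact_mod_cast hS₁S))).symm
    obtain ⟨L', hL'⟩ := ih S' σ (fun s hs => (Finset.mem_filter.mp hs).2)
      (hσ.mono (by exact_mod_cast hS'S)) (fun s hs => hle s (hS'S hs))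
    -- the extremal set `T`
    let cand : Finset (Finset ℕ) :=
      D.powerset.filter (fun T => T.card = T₀.card ∧ Inj L' S' (D \ T))
    have hT₀c : T₀ ∈ cand := by
      simp only [cand, Finset.mem_filter, Finset.mem_powerset]
      refine ⟨hT₀D, trivial, ?_⟩
      rw [hD'eq]; exact hL'
    obtain ⟨T, hTc, hTmax⟩ := Finset.exists_max_image cand (fun T => ∑ t ∈ T, t) ⟨T₀, hT₀c⟩
    simp only [cand, Finset.mem_filter, Finset.mem_powerset] at hTc
    obtain ⟨hTD, hTcard, hTinj⟩ := hTc
    have hcardDT : S'.card = (D \ T).card := by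
      have h1 : (D \ T).card = D.card - T.card := Finset.card_sdiff_of_subset hTD
      have h2 : (D \ T₀).card = D.card - T₀.card := Finset.card_sdiff_of_subset hT₀D
      rw [hcardS', h1, hTcard, ← h2, hD'eq]
    -- the echelon basis
    have hg : ∀ τ : ℕ, ∃ g : ℕ → ℝ, (∀ t, t ∉ D \ T → g t = 0) ∧
        ∀ s ∈ S', ∑ t ∈ D \ T, g t * e L' s t = - e L' s τ :=
      fun τ => surj_of_inj hTinj hcardDT (fun s => - e L' s τ)
    choose g hg1 hg2 using hg
    have hgsum : ∀ τ ∈ T, ∀ s ∈ S', ∑ t ∈ D, g τ t * e L' s t = - e L' s τ := by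
      intro τ _ s hs
      rw [← hg2 τ s hs, ← Finset.sum_sdiff hTD]
      rw [add_eq_left]
      apply Finset.sum_eq_zero
      intro t ht
      rw [hg1 τ t (by simp [ht]), zero_mul]
    have hglt : ∀ τ ∈ T, ∀ t, g τ t ≠ 0 → t < τ := by
      intro τ hτ t' hne
      by_contra hlt
      have ht' : t' ∈ D \ T := by
        by_contra h; exact hne (hg1 τ t' h)
      have ht'D := (Finset.mem_sdiff.mp ht').1
      have ht'T := (Finset.mem_sdiff.mp ht').2
      have hτt' : τ < t' := by
        rcases Nat.lt_or_ge τ t' with h | h
        · exact h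
        · exact absurd (lt_of_le_of_ne h (fun h' => ht'T (h' ▸ hτ))) hlt
      -- exchange
      set T2 := insert t' (T.erase τ) with hT2
      have hT2c : T2 ∈ cand := by
        simp only [cand, Finset.mem_filter, Finset.mem_powerset]
        refine ⟨?_, ?_, ?_⟩
        · intro x hx
          rcases Finset.mem_insert.mp hx with rfl | hx
          · exact ht'D
          · exact hTD (Finset.mem_of_mem_erase hx)
        · rw [hT2, Finset.card_insert_of_notMem, Finset.card_erase_of_mem hτ]
          · have : 0 < T.card := Finset.card_pos.mpr ⟨τ, hτ⟩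
            omega
          · intro h; exact ht'T (Finset.mem_of_mem_erase h)
        · intro c hc
          -- c' = c - c τ • (x^τ + g τ), supported on D \ T
          have hset : D \ T2 = insert τ ((D \ T).erase t') := by
            ext x
            simp only [hT2, Finset.mem_sdiff, Finset.mem_insert, Finset.mem_erase, not_or, not_and]
            constructor
            · rintro ⟨hx, hx1, hx2⟩
              by_cases hxτ : x = τ
              · exact Or.inl hxτ
              · exact Or.inr ⟨hx1, hx, hx2 hxτ⟩
            · rintro (rfl | ⟨hx1, hx, hx2⟩)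
              · exact ⟨hTD hτ, hτt'.ne, fun h => absurd rfl h⟩
              · exact ⟨hx, hx1, fun _ => hx2⟩
          have hτn : τ ∉ (D \ T).erase t' := by
            intro h
            exact (Finset.mem_sdiff.mp (Finset.mem_of_mem_erase h)).2 hτ
          have hz := hTinj (fun t => (if t = t' then 0 else c t) - c τ * g τ t) (by
            intro s hs
            have h1 := hc s hs
            rw [hset, Finset.sum_insert hτn] at h1
            have h2 : ∑ t ∈ D \ T, (if t = t' then 0 else c t) * e L' s t
                = ∑ t ∈ (D \ T).erase t', c t * e L' s t := by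
              rw [← Finset.add_sum_erase _ _ ht']
              simp only [if_true, zero_mul, zero_add]
              refine Finset.sum_congr rfl fun t ht => ?_
              rw [if_neg (Finset.ne_of_mem_erase ht)]
            simp only [sub_mul, Finset.sum_sub_distrib]
            rw [h2]
            have h3 : ∑ t ∈ D \ T, c τ * g τ t * e L' s t = c τ * (- e L' s τ) := by
              rw [← hg2 τ s hs, Finset.mul_sum]
              refine Finset.sum_congr rfl fun t _ => by ring
            rw [h3]
            linarith)
          have hcτ : c τ = 0 := by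
            have := hz t' ht'
            simp only [if_true, zero_sub, neg_eq_zero, mul_eq_zero] at this
            exact this.resolve_right hne
          intro t ht
          rw [hset] at ht
          rcases Finset.mem_insert.mp ht with rfl | ht
          · exact hcτ
          · have := hz t (Finset.mem_of_mem_erase ht)
            simp only [if_neg (Finset.ne_of_mem_erase ht), hcτ, zero_mul, sub_zero] at this
            exact this
      have h5 := hTmax T2 hT2c
      have h6 : ∑ t ∈ T2, t = t' + ∑ t ∈ T.erase τ, t := by
        rw [hT2, Finset.sum_insert]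
        intro h; exact ht'T (Finset.mem_of_mem_erase h)
      have h7 : τ + ∑ t ∈ T.erase τ, t = ∑ t ∈ T, t := Finset.add_sum_erase T (fun t => t) hτ
      omega
    -- `f τ = x^τ + g τ`
    let f : ℕ → ℕ → ℝ := fun τ t => (if t = τ then 1 else 0) + g τ t
    have hfself : ∀ τ ∈ T, f τ τ = 1 := by
      intro τ hτ
      simp only [f, if_true]
      rw [hg1 τ τ (by simp [hτ]), add_zero]
    have hfT : ∀ τ ∈ T, ∀ t ∈ T, t ≠ τ → f τ t = 0 := by
      intro τ _ t ht hne
      simp only [f, if_neg hne, zero_add]
      exact hg1 τ t (by simp [ht])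
    have hfle : ∀ τ ∈ T, ∀ t, f τ t ≠ 0 → t ≤ τ := by
      intro τ hτ t ht
      by_cases h : t = τ
      · exact h.le
      · simp only [f, if_neg h, zero_add] at ht
        exact (hglt τ hτ t ht).le
    have hfD : ∀ τ ∈ T, ∀ t, t ∉ D → f τ t = 0 := by
      intro τ hτ t ht
      have h1 : t ≠ τ := fun h => ht (h ▸ hTD hτ)
      simp only [f, if_neg h1, zero_add]
      exact hg1 τ t (fun h => ht (Finset.mem_sdiff.mp h).1)
    have hfker : ∀ τ ∈ T, ∀ s ∈ S', ∑ t ∈ D, f τ t * e L' s t = 0 := by
      intro τ hτ s hs
      simp only [f, add_mul, Finset.sum_add_distrib]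
      rw [hgsum τ hτ s hs]
      simp [hTD hτ]
    -- expansion of a solution of the conditions `S'` in the echelon basis
    have hexp : ∀ c : ℕ → ℝ, (∀ s ∈ S', ∑ t ∈ D, c t * e L' s t = 0) →
        ∀ t ∈ D, c t = ∑ τ ∈ T, c τ * f τ t := by
      intro c hc t ht
      by_cases htT : t ∈ T
      · rw [Finset.sum_eq_single t]
        · rw [hfself t htT, mul_one]
        · intro τ hτ hne
          rw [hfT τ hτ t htT hne.symm, mul_zero]
        · intro h; exact absurd htT h
      · have h1 := hTinj (fun t => c t - ∑ τ ∈ T, c τ * f τ t) (by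
          intro s hs
          have h2 : ∑ t ∈ D, (c t - ∑ τ ∈ T, c τ * f τ t) * e L' s t = 0 := by
            simp only [sub_mul, Finset.sum_sub_distrib]
            rw [hc s hs, zero_sub, neg_eq_zero]
            simp only [Finset.sum_mul]
            rw [Finset.sum_comm]
            apply Finset.sum_eq_zero
            intro τ hτ
            have := hfker τ hτ s hs
            simp only [mul_assoc]
            rw [← Finset.mul_sum, this, mul_zero]
          rw [← Finset.sum_sdiff hTD] at h2
          have h3 : ∑ t ∈ T, (c t - ∑ τ ∈ T, c τ * f τ t) * e L' s t = 0 := by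
            apply Finset.sum_eq_zero
            intro t ht
            rw [Finset.sum_eq_single t]
            · rw [hfself t ht, mul_one, sub_self, zero_mul]
            · intro τ hτ hne
              rw [hfT τ hτ t ht hne.symm, mul_zero]
            · intro h; exact absurd ht h
          rw [h3, add_zero] at h2
          exact h2)
        have := h1 t (Finset.mem_sdiff.mpr ⟨ht, htT⟩)
        linarith
    -- domination
    have hdom : ∀ j, (T.filter (· < j)).card ≤ (T₀.filter (· < j)).card := by
      intro j
      let φ : (T.filter (· < j) → ℝ) →ₗ[ℝ] (T₀.filter (· < j) → ℝ) :=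
        { toFun := fun a t => ∑ τ, a τ * f τ t
          map_add' := by intro a b; ext t; simp [add_mul, Finset.sum_add_distrib]
          map_smul' := by intro r a; ext t; simp [Finset.mul_sum, mul_assoc] }
      have hinj : Function.Injective φ := by
        rw [← LinearMap.ker_eq_bot, LinearMap.ker_eq_bot']
        intro a ha
        -- the polynomial
        let c : ℕ → ℝ := fun t => ∑ τ : T.filter (· < j), a τ * f τ t
        have hcT₀ : ∀ t ∈ T₀, c t = 0 := by
          intro t ht
          by_cases htj : t < j
          · exact congrFun ha ⟨t, Finset.mem_filter.mpr ⟨ht, htj⟩⟩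
          · apply Finset.sum_eq_zero
            intro τ _
            have hτ := Finset.mem_filter.mp τ.2
            have : f τ t = 0 := by
              by_contra h
              have := hfle τ hτ.1 t h
              omega
            rw [this, mul_zero]
        have hck : ∀ s ∈ S', ∑ t ∈ D', c t * e L' s t = 0 := by
          intro s hs
          have h1 : ∑ t ∈ D, c t * e L' s t = 0 := by
            simp only [c, Finset.sum_mul]
            rw [Finset.sum_comm]
            apply Finset.sum_eq_zero
            intro τ _
            have hτ := Finset.mem_filter.mp τ.2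
            have := hfker τ hτ.1 s hs
            simp only [mul_assoc]
            rw [← Finset.mul_sum, this, mul_zero]
          rw [← hDu, Finset.sum_union hDd] at h1
          have h2 : ∑ t ∈ T₀, c t * e L' s t = 0 := by
            apply Finset.sum_eq_zero
            intro t ht
            rw [hcT₀ t ht, zero_mul]
          rw [h2, add_zero] at h1
          exact h1
        have hc0 : ∀ t ∈ D, c t = 0 := by
          intro t ht
          rw [← hDu] at ht
          rcases Finset.mem_union.mp ht with h | h
          · exact hL' c hck t h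
          · exact hcT₀ t h
        ext τ
        have hτ := Finset.mem_filter.mp τ.2
        have h1 : c τ = a τ := by
          simp only [c]
          rw [Finset.sum_eq_single τ]
          · rw [hfself τ hτ.1, mul_one]
          · intro τ' _ hne
            have hτ' := Finset.mem_filter.mp τ'.2
            rw [hfT τ' hτ'.1 τ hτ.1 (fun h => hne (Subtype.ext h.symm)), mul_zero]
          · intro h; exact absurd (Finset.mem_univ _) h
        rw [Pi.zero_apply, ← h1]
        exact hc0 τ (hTD hτ.1)
      have := LinearMap.finrank_le_finrank_of_injective hinj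
      simpa using this
    -- the orders at the last node
    set Km := S₁.image Prod.snd with hKm
    have hdom2 : ∀ j, (T₀.filter (· < j)).card ≤ (Km.filter (· < j)).card := by
      intro j
      have h1 : T₀.filter (· < j) = (S₁.filter (fun s => σ s < j)).image σ := by
        rw [hT₀, Finset.filter_image]
      have h2 : (S₁.filter (fun s => σ s < j)).image Prod.snd ⊆ Km.filter (· < j) := by
        intro k hk
        obtain ⟨s, hs, rfl⟩ := Finset.mem_image.mp hk
        have hs' := Finset.mem_filter.mp hs
        refine Finset.mem_filter.mpr ⟨Finset.mem_image_of_mem _ hs'.1, ?_⟩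
        exact lt_of_le_of_lt (hle s (hS₁S hs'.1)) hs'.2
      rw [h1]
      refine le_trans Finset.card_image_le ?_
      rw [← Finset.card_image_of_injOn (f := Prod.snd)
        (s := S₁.filter (fun s => σ s < j))]
      · exact Finset.card_le_card h2
      · intro a ha b hb hab
        have ha' := (Finset.mem_filter.mp (Finset.mem_filter.mp ha).1).2
        have hb' := (Finset.mem_filter.mp (Finset.mem_filter.mp hb).1).2
        exact Prod.ext (ha'.trans hb'.symm) hab
    -- the matrix in the variable `s = 1 / x`
    let G : Matrix Km T ℝ[X] := fun k τ =>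
      ∑ t ∈ D, C (f τ t * (t.descFactorial (k : ℕ) : ℝ)) * X ^ ((τ : ℕ) - t)
    have hGdet0 : ((G.transpose * G).det).eval 0 ≠ 0 := by
      intro h0
      have hG0 : ∀ k τ, (G k τ).eval 0 = ((τ : ℕ).descFactorial (k : ℕ) : ℝ) := by
        intro k τ
        simp only [G]
        rw [eval_finsetSum, Finset.sum_eq_single (τ : ℕ)]
        · simp [hfself τ τ.2]
        · intro t _ hne
          by_cases hf : f τ t = 0
          · simp [hf]
          · have h1 := hfle τ τ.2 t hf
            have h2 : (τ : ℕ) - t ≠ 0 := by omega
            simp [h2]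
        · intro h; exact absurd (hTD τ.2) h
      rw [← coe_evalRingHom, RingHom.map_det] at h0
      obtain ⟨v, hv, hv2⟩ := Matrix.exists_mulVec_eq_zero_iff.mpr h0
      rw [RingHom.mapMatrix_apply, Matrix.map_mul] at hv2
      set GR : Matrix Km T ℝ := G.map (evalRingHom (0 : ℝ)) with hGR
      have htr : (G.transpose).map (evalRingHom (0 : ℝ)) = GR.transpose := rfl
      rw [htr, ← Matrix.mulVec_mulVec] at hv2
      have h6 : v ⬝ᵥ (GR.transpose.mulVec (GR.mulVec v)) = 0 := by rw [hv2, dotProduct_zero]
      rw [Matrix.dotProduct_mulVec, Matrix.vecMul_transpose] at h6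
      have h2 : GR.mulVec v = 0 := dotProduct_self_eq_zero.mp h6
      apply hv
      ext t
      have h3 := pascal_real Km T (fun j => (hdom j).trans (hdom2 j))
        (fun t => if ht : t ∈ T then v ⟨t, ht⟩ else 0) (by
        intro k hk
        have h4 := congrFun h2 ⟨k, hk⟩
        rw [Matrix.mulVec, dotProduct] at h4
        rw [← Finset.sum_coe_sort]
        simp only [Pi.zero_apply] at h4
        rw [← h4]
        refine Finset.sum_congr rfl fun t _ => ?_
        have : GR ⟨k, hk⟩ t = ((t : ℕ).descFactorial k : ℝ) := hG0 ⟨k, hk⟩ t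
        rw [this]
        simp [mul_comm])
      have := h3 t t.2
      simpa using this
    obtain ⟨s₀, hs₀, hdet⟩ : ∃ s₀ : ℝ, s₀ ≠ 0 ∧ ((G.transpose * G).det).eval s₀ ≠ 0 := by
      by_contra hcon
      push Not at hcon
      have : (X : ℝ[X]) * (G.transpose * G).det = 0 := by
        apply Polynomial.funext
        intro r
        by_cases hr : r = 0
        · simp [hr]
        · simp [hcon r hr]
      rcases mul_eq_zero.mp this with h | h
      · exact X_ne_zero h
      · apply hGdet0; rw [h]; simp
    have hGinj : ∀ a : ℕ → ℝ, (∀ k ∈ Km, ∑ τ ∈ T, a τ *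
        (∑ t ∈ D, f τ t * (t.descFactorial k : ℝ) * s₀ ^ (τ - t)) = 0) → ∀ τ ∈ T, a τ = 0 := by
      intro a ha τ hτ
      by_contra hne
      apply hdet
      rw [← coe_evalRingHom, RingHom.map_det, ← Matrix.exists_mulVec_eq_zero_iff]
      refine ⟨fun τ => a τ, fun h0 => hne (congrFun h0 ⟨τ, hτ⟩), ?_⟩
      rw [RingHom.mapMatrix_apply, Matrix.map_mul, ← Matrix.mulVec_mulVec]
      have : (G.map (evalRingHom s₀)).mulVec (fun τ => a τ) = 0 := by
        ext k
        rw [Matrix.mulVec, dotProduct]
        have h5 := ha k k.2
        rw [← Finset.sum_coe_sort] at h5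
        simp only [Pi.zero_apply]
        rw [← h5]
        refine Finset.sum_congr rfl fun t _ => ?_
        rw [mul_comm]
        congr 1
        rw [Matrix.map_apply, coe_evalRingHom]
        simp only [G]
        rw [eval_finsetSum]
        refine Finset.sum_congr rfl fun t _ => ?_
        simp
      rw [this, Matrix.mulVec_zero]
    -- the new node
    set x := s₀⁻¹ with hx
    have hx0 : x ≠ 0 := inv_ne_zero hs₀
    let L : ℕ → ℝ := fun i => if i = m then x else L' i
    refine ⟨L, ?_⟩
    have hLe : ∀ s ∈ S', ∀ t, e L s t = e L' s t := by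
      intro s hs t
      have : s.1 ≠ m := by
        have := (Finset.mem_filter.mp hs).2
        omega
      simp only [e, L, if_neg this]
    intro c hc
    have hc' : ∀ s ∈ S', ∑ t ∈ D, c t * e L' s t = 0 := by
      intro s hs
      rw [← hc s (hS'S hs)]
      refine Finset.sum_congr rfl fun t _ => ?_
      rw [hLe s hs]
    have hexpc := hexp c hc'
    have hcT : ∀ τ ∈ T, c τ * x ^ τ = 0 := by
      apply hGinj (fun τ => c τ * x ^ τ)
      intro k hk
      obtain ⟨s, hs, rfl⟩ := Finset.mem_image.mp hk
      have hsm : s.1 = m := (Finset.mem_filter.mp hs).2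
      have h1 := hc s (hS₁S hs)
      have h2 : ∀ t, e L s t * x ^ s.2 = (t.descFactorial s.2 : ℝ) * x ^ t := by
        intro t
        simp only [e, L, if_pos hsm]
        by_cases hts : t < s.2
        · rw [Nat.descFactorial_of_lt hts]; simp
        · rw [mul_assoc, ← pow_add, Nat.sub_add_cancel (not_lt.mp hts)]
      have h3 : (∑ t ∈ D, c t * e L s t) * x ^ s.2 = 0 := by rw [h1, zero_mul]
      rw [← h3, Finset.sum_mul]
      have h4 : ∀ t ∈ D, c t * e L s t * x ^ s.2
          = ∑ τ ∈ T, c τ * f τ t * ((t.descFactorial s.2 : ℝ) * x ^ t) := by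
        intro t ht
        rw [mul_assoc, h2]
        conv_lhs => rw [hexpc t ht]
        rw [Finset.sum_mul]
      rw [Finset.sum_congr rfl h4, Finset.sum_comm]
      refine Finset.sum_congr rfl fun τ hτ => ?_
      rw [Finset.mul_sum]
      refine Finset.sum_congr rfl fun t _ => ?_
      by_cases hf : f τ t = 0
      · simp [hf]
      · have h5 := hfle τ hτ t hf
        have h6 : x ^ τ * s₀ ^ (τ - t) = x ^ t := by
          have : τ = t + (τ - t) := by omega
          conv_lhs => rw [this, pow_add]
          rw [Nat.add_sub_cancel_left, mul_assoc, ← mul_pow, hx, inv_mul_cancel₀ hs₀, one_pow,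
            mul_one]
        calc c τ * x ^ τ * (f τ t * (t.descFactorial s.2 : ℝ) * s₀ ^ (τ - t))
            = c τ * f τ t * (t.descFactorial s.2 : ℝ) * (x ^ τ * s₀ ^ (τ - t)) := by ring
          _ = _ := by rw [h6]; ring
    have hcT0 : ∀ τ ∈ T, c τ = 0 := by
      intro τ hτ
      rcases mul_eq_zero.mp (hcT τ hτ) with h | h
      · exact h
      · exact absurd h (pow_ne_zero _ hx0)
    intro t ht
    rw [hexpc t ht]
    apply Finset.sum_eq_zero
    intro τ hτ
    rw [hcT0 τ hτ, zero_mul]

end Pool.Agent.Lib.MP_680f50_nt
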