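import Mathlib
import Pool.Agent.Lib.MP_680f50_nt.Exact
import Pool.Agent.Lib.MP_680f50_nt.Generic

set_option autoImplicit false

open Polynomial

namespace Pool.Agent.Lib.MP_680f50_nt

/-- the number of nonzero entries of `M` in the columns with index at least `j` -/
def tailCount {m n : ℕ} (M : Matrix (Fin m) (Fin (n + 1)) ℕ) (j : ℕ) : ℕ :=
  ((zeroSet M).filter (fun p => j ≤ (p.2 : ℕ))).card

/-- the maximum of `j + tailCount M j` over `0 ≤ j ≤ n` -/
def closedForm {m n : ℕ} (M : Matrix (Fin m) (Fin (n + 1)) ℕ) : ℕ :=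
  (Finset.range (n + 1)).sup (fun j => j + tailCount M j)

/-- Hall's theorem for upper intervals. -/
lemma hall_interval {β : Type*} [DecidableEq β] (S : Finset β) (k : β → ℕ) (T : Finset ℕ)
    (h : ∀ s ∈ S, (S.filter (fun s' => k s ≤ k s')).card ≤ (T.filter (fun t => k s ≤ t)).card) :
    ∃ σ : β → ℕ, Set.InjOn σ (S : Set β) ∧ ∀ s ∈ S, σ s ∈ T ∧ k s ≤ σ s := by
  classical
  have hall := (Finset.all_card_le_biUnion_card_iff_exists_injective
    (fun s : S => T.filter (fun t => k s ≤ t))).mp (by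
    intro A
    rcases A.eq_empty_or_nonempty with rfl | hA
    · simp
    obtain ⟨s, hs, hmin⟩ := Finset.exists_min_image A (fun s => k s) hA
    have h1 : T.filter (fun t => k s ≤ t) ⊆ A.biUnion (fun s : S => T.filter (fun t => k s ≤ t)) :=
      Finset.subset_biUnion_of_mem (fun s : S => T.filter (fun t => k s ≤ t)) hs
    refine le_trans ?_ (Finset.card_le_card h1)
    refine le_trans ?_ (h s s.2)
    rw [← Finset.card_image_of_injective A Subtype.val_injective]
    apply Finset.card_le_card
    intro x hx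
    obtain ⟨y, hy, rfl⟩ := Finset.mem_image.mp hx
    exact Finset.mem_filter.mpr ⟨y.2, hmin y hy⟩)
  obtain ⟨f, hf1, hf2⟩ := hall
  refine ⟨fun s => if hs : s ∈ S then f ⟨s, hs⟩ else 0, ?_, ?_⟩
  · intro a ha b hb hab
    have ha' : a ∈ S := ha
    have hb' : b ∈ S := hb
    simp only [dif_pos ha', dif_pos hb'] at hab
    have := hf1 hab
    exact congrArg Subtype.val this
  · intro s hs
    simp only [dif_pos hs]
    have := Finset.mem_filter.mp (hf2 ⟨s, hs⟩)
    exact this

section

variable {K : Type*} [Field K] [CharZero K] {m n : ℕ}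

lemma closed_of {M : Matrix (Fin m) (Fin (n + 1)) ℕ} (hM : IsMultiplicityMatrix M)
    {L : Fin m → K} (hL : Function.Injective L)
    (R1 : ∀ u ∈ nonzeroSet M, ¬ Dep L (closedForm M) (zeroSet M) u)
    (R2 : ∀ F : K[X], F ≠ 0 → n ≤ F.natDegree → F.natDegree < closedForm M →
      ¬ ∀ s ∈ zeroSet M, ev (L s.1) (s.2 : ℕ) F = 0) :
    IsLeast {N : ℕ | ∃ F : K[X], F.natDegree = N ∧ Extends M L F} (closedForm M) := by
  have hE := isLeast_exact hM hL
  set D := max n ((nonzeroSet M).sup fun u => gap L (zeroSet M) u) with hD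
  have hdisj : ∀ u ∈ nonzeroSet M, u ∉ zeroSet M := by
    intro u hu hz
    simp only [nonzeroSet, zeroSet, Finset.mem_filter, Finset.mem_univ, true_and] at hu hz
    exact hz hu
  have h1 : D ≤ closedForm M := by
    rw [hD]
    apply max_le
    · have : n + tailCount M n ≤ closedForm M :=
        Finset.le_sup (f := fun j => j + tailCount M j) (Finset.mem_range.mpr (Nat.lt_succ_self n))
      omega
    · apply Finset.sup_le
      intro u hu
      by_contra hlt
      push Not at hlt
      rw [← gap_spec hL (hdisj u hu)] at hlt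
      exact R1 u hu hlt
  have h2 : closedForm M ≤ D := by
    by_contra hlt
    push Not at hlt
    obtain ⟨F, hF1, hF2⟩ := hE.1
    rw [extends_iff hM] at hF2
    exact R2 F hF2.1 hF2.2.1 (by rw [hF1]; exact hlt) hF2.2.2.1
  rw [le_antisymm h2 h1]
  exact hE

omit [CharZero K] in
/-- the value of `F^(k)(a)` in terms of the coefficients -/
lemma ev_eq_sum {N : ℕ} {F : K[X]} (hF : F.natDegree ≤ N) (a : K) (k : ℕ) :
    ev a k F = ∑ t ∈ Finset.range (N + 1), F.coeff t * ((t.descFactorial k : K) * a ^ (t - k)) := by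
  conv_lhs => rw [F.as_sum_range_C_mul_X_pow' (Nat.lt_succ_of_le hF)]
  rw [map_sum]
  refine Finset.sum_congr rfl fun t _ => ?_
  rw [← smul_eq_C_mul, map_smul, ev_X_pow, smul_eq_mul]

omit [CharZero K] in
lemma ev_sum_monomials {ι : Type*} (s : Finset ι) (c : ι → K) (σ : ι → ℕ) (a : K) (k : ℕ) :
    ev a k (∑ i ∈ s, C (c i) * X ^ (σ i)) =
      ∑ i ∈ s, c i * (((σ i).descFactorial k : K) * a ^ (σ i - k)) := by
  rw [map_sum]
  refine Finset.sum_congr rfl fun t _ => ?_
  rw [← smul_eq_C_mul, map_smul, ev_X_pow, smul_eq_mul]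

/-- the square condition matrix of a matched set of conditions -/
def sqMat (L : Fin m → K) (S : Finset (Fin m × Fin (n + 1))) (σ : Fin m × Fin (n + 1) → ℕ) :
    Matrix S S K :=
  fun s s' => (((σ s').descFactorial (s.1.2 : ℕ) : K) * L s.1.1 ^ (σ s' - (s.1.2 : ℕ)))

/-- a tight tail of conditions -/
lemma exists_tight {M : Matrix (Fin m) (Fin (n + 1)) ℕ} {N : ℕ} (hN : n ≤ N)
    (hN2 : N < closedForm M) :
    ∃ j ≤ n, ∃ S ⊆ zeroSet M, (∀ s ∈ S, j ≤ (s.2 : ℕ)) ∧ S.card = N + 1 - j ∧
      ∀ i, j ≤ i → (S.filter (fun s => i ≤ (s.2 : ℕ))).card ≤ N + 1 - i := by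
  classical
  have hex : ∃ j ∈ Finset.range (n + 1), N < j + tailCount M j := by
    by_contra h
    push Not at h
    have : closedForm M ≤ N := Finset.sup_le h
    omega
  let J := (Finset.range (n + 1)).filter (fun j => N < j + tailCount M j)
  have hJ : J.Nonempty := by
    obtain ⟨j, hj, hj2⟩ := hex
    exact ⟨j, Finset.mem_filter.mpr ⟨hj, hj2⟩⟩
  set j := J.max' hJ with hjdef
  have hjJ : j ∈ J := J.max'_mem hJ
  have hj1 : j ≤ n := Nat.lt_succ_iff.mp (Finset.mem_range.mp (Finset.mem_filter.mp hjJ).1)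
  have hj2 : N < j + tailCount M j := (Finset.mem_filter.mp hjJ).2
  have hjmax : ∀ i, j < i → tailCount M i ≤ N - i := by
    intro i hi
    rcases Nat.lt_or_ge n i with h1 | h1
    · have h2 : tailCount M i = 0 := by
        rw [tailCount, Finset.card_eq_zero, Finset.filter_eq_empty_iff]
        intro p _ hp
        have := p.2.2
        omega
      rw [h2]; exact Nat.zero_le _
    · by_contra h
      push Not at h
      have : i ∈ J := Finset.mem_filter.mpr ⟨Finset.mem_range.mpr (Nat.lt_succ_of_le h1), by omega⟩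
      have := J.le_max' i this
      omega
  have hAB : (zeroSet M).filter (fun p => j + 1 ≤ (p.2 : ℕ)) ⊆
      (zeroSet M).filter (fun p => j ≤ (p.2 : ℕ)) := by
    intro p hp
    rw [Finset.mem_filter] at hp ⊢
    exact ⟨hp.1, by omega⟩
  have hA : ((zeroSet M).filter (fun p => j + 1 ≤ (p.2 : ℕ))).card ≤ N + 1 - j := by
    have := hjmax (j + 1) (Nat.lt_succ_self j)
    rw [tailCount] at this
    omega
  have hB : N + 1 - j ≤ ((zeroSet M).filter (fun p => j ≤ (p.2 : ℕ))).card := by
    rw [tailCount] at hj2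
    omega
  obtain ⟨S, hS1, hS2, hS3⟩ := Finset.exists_subsuperset_card_eq hAB hA hB
  refine ⟨j, hj1, S, hS2.trans (Finset.filter_subset _ _), ?_, hS3, ?_⟩
  · intro s hs
    exact (Finset.mem_filter.mp (hS2 hs)).2
  · intro i hi
    rcases Nat.lt_or_ge j i with h | h
    · have h1 : S.filter (fun s => i ≤ (s.2 : ℕ)) ⊆ (zeroSet M).filter (fun p => i ≤ (p.2 : ℕ)) := by
        intro p hp
        rw [Finset.mem_filter] at hp ⊢
        exact ⟨(Finset.mem_filter.mp (hS2 hp.1)).1, hp.2⟩
      have h2 := Finset.card_le_card h1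
      have h3 := hjmax i h
      rw [tailCount] at h3
      omega
    · have : i = j := le_antisymm h hi
      subst this
      rw [← hS3]
      exact Finset.card_filter_le _ _

/-- Hall's condition for the zero conditions together with one more condition. -/
lemma hall_insert {M : Matrix (Fin m) (Fin (n + 1)) ℕ} (u : Fin m × Fin (n + 1))
    (i : ℕ) (hi : i ≤ n) :
    ((insert u (zeroSet M)).filter (fun s => i ≤ (s.2 : ℕ))).card + i ≤ closedForm M + 1 := by
  classical
  have h1 : ((insert u (zeroSet M)).filter (fun s => i ≤ (s.2 : ℕ))).card ≤ tailCount M i + 1 := by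
    rw [Finset.filter_insert, tailCount]
    split_ifs
    · exact Finset.card_insert_le _ _
    · omega
  have h2 : i + tailCount M i ≤ closedForm M :=
    Finset.le_sup (f := fun j => j + tailCount M j) (Finset.mem_range.mpr (Nat.lt_succ_of_le hi))
  omega

end

end Pool.Agent.Lib.MP_680f50_nt
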