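import Mathlib
import Pool.Agent.Lib.MP_680f50_nt.Closed

set_option autoImplicit false

open Polynomial

namespace Pool.Agent.Lib.MP_680f50_nt

section

variable {m n : ℕ}

/-- the square condition matrix over the integer polynomials in the nodes -/
noncomputable def polyMat (S : Finset (Fin m × Fin (n + 1))) (σ : Fin m × Fin (n + 1) → ℕ) :
    Matrix S S (MvPolynomial (Fin m) ℤ) :=
  fun s s' => MvPolynomial.C ((σ s').descFactorial (s.1.2 : ℕ) : ℤ) *
    MvPolynomial.X s.1.1 ^ (σ s' - (s.1.2 : ℕ))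

lemma aeval_det {K : Type*} [Field K] (L : Fin m → K) (S : Finset (Fin m × Fin (n + 1)))
    (σ : Fin m × Fin (n + 1) → ℕ) :
    MvPolynomial.aeval L (polyMat S σ).det = (sqMat L S σ).det := by
  rw [AlgHom.map_det]
  congr 1
  ext s s'
  simp [polyMat, sqMat]

lemma det_ne_zero_of_match (S : Finset (Fin m × Fin (n + 1))) (σ : Fin m × Fin (n + 1) → ℕ)
    (hσ : Set.InjOn σ (S : Set (Fin m × Fin (n + 1)))) (hle : ∀ s ∈ S, (s.2 : ℕ) ≤ σ s) :
    (polyMat S σ).det ≠ 0 := by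
  classical
  let ι : Fin m × Fin (n + 1) → ℕ × ℕ := fun s => ((s.1 : ℕ), (s.2 : ℕ))
  have hι : Function.Injective ι := by
    intro a b hab
    simp only [ι, Prod.mk.injEq] at hab
    exact Prod.ext (Fin.ext hab.1) (Fin.ext hab.2)
  let σ' : ℕ × ℕ → ℕ := fun p =>
    if h : p.1 < m ∧ p.2 < n + 1 then σ (⟨p.1, h.1⟩, ⟨p.2, h.2⟩) else 0
  have hσ' : ∀ s, σ' (ι s) = σ s := by
    intro s
    simp only [σ', ι]
    rw [dif_pos ⟨s.1.2, s.2.2⟩]
  obtain ⟨L, hL⟩ := generic_inj m (S.image ι) σ' (by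
    intro s hs
    obtain ⟨p, _, rfl⟩ := Finset.mem_image.mp hs
    exact p.1.2) (by
    intro a ha b hb hab
    rw [Finset.mem_coe] at ha hb
    obtain ⟨p, hp, rfl⟩ := Finset.mem_image.mp ha
    obtain ⟨q, hq, rfl⟩ := Finset.mem_image.mp hb
    rw [hσ', hσ'] at hab
    rw [hσ hp hq hab]) (by
    intro s hs
    obtain ⟨p, hp, rfl⟩ := Finset.mem_image.mp hs
    rw [hσ']
    exact hle p hp)
  have himg : (S.image ι).image σ' = S.image σ := by
    rw [Finset.image_image]
    apply Finset.image_congr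
    intro s _
    exact hσ' s
  rw [himg] at hL
  intro h0
  have h1 : (sqMat (fun i : Fin m => L i) S σ).det = 0 := by
    rw [← aeval_det, h0, map_zero]
  obtain ⟨v, hv, hv2⟩ := Matrix.exists_mulVec_eq_zero_iff.mpr h1
  apply hv
  let c : ℕ → ℝ := fun t => ∑ s' : S, if σ s' = t then v s' else 0
  have hcs : ∀ s' : S, c (σ s') = v s' := by
    intro s'
    simp only [c]
    rw [Finset.sum_eq_single s']
    · simp
    · intro s'' _ hne
      rw [if_neg]
      intro h
      exact hne (Subtype.ext (hσ s''.2 s'.2 h))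
    · intro h; exact absurd (Finset.mem_univ _) h
  have hsum : ∀ g : ℕ → ℝ, ∑ t ∈ S.image σ, c t * g t = ∑ s' : S, v s' * g (σ s') := by
    intro g
    rw [Finset.sum_image hσ, ← Finset.sum_coe_sort]
    refine Finset.sum_congr rfl fun s' _ => ?_
    rw [hcs]
  have hc := hL c (by
    intro p hp
    obtain ⟨s, hs, rfl⟩ := Finset.mem_image.mp hp
    rw [hsum (fun t => e L (ι s) t)]
    have h2 := congrFun hv2 ⟨s, hs⟩
    rw [Matrix.mulVec, dotProduct] at h2
    rw [Pi.zero_apply] at h2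
    rw [← h2]
    refine Finset.sum_congr rfl fun s' _ => ?_
    rw [mul_comm]
    rfl)
  ext s'
  rw [← hcs s', Pi.zero_apply]
  exact hc _ (Finset.mem_image_of_mem _ s'.2)

lemma sum_sq {K : Type*} [Field K] (L : Fin m → K) (S : Finset (Fin m × Fin (n + 1)))
    (σ : Fin m × Fin (n + 1) → ℕ) (v : S → K) (s : S) :
    ev (L s.1.1) (s.1.2 : ℕ) (∑ s' : S, C (v s') * X ^ (σ s')) = (sqMat L S σ).mulVec v s := by
  rw [ev_sum_monomials Finset.univ v (fun s' : S => σ s')]
  rw [Matrix.mulVec, dotProduct]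
  refine Finset.sum_congr rfl fun s' _ => ?_
  rw [sqMat]
  ring

lemma R1_of_det {K : Type*} [Field K] {L : Fin m → K} {N : ℕ}
    {S : Finset (Fin m × Fin (n + 1))} {u : Fin m × Fin (n + 1)} (hu : u ∉ S)
    {σ : Fin m × Fin (n + 1) → ℕ} (hσ : ∀ s ∈ insert u S, σ s ≤ N)
    (hdet : (sqMat L (insert u S) σ).det ≠ 0) : ¬ Dep L N S u := by
  classical
  intro hD
  have hunit : IsUnit (sqMat L (insert u S) σ) := by
    rw [Matrix.isUnit_iff_isUnit_det]
    exact isUnit_iff_ne_zero.mpr hdet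
  obtain ⟨v, hv⟩ := (Matrix.mulVec_surjective_iff_isUnit.mpr hunit)
    (fun x => if x.1 = u then (1 : K) else 0)
  have h1 : ∀ s (hs : s ∈ insert u S),
      ev (L s.1) (s.2 : ℕ) (∑ s' : {x // x ∈ insert u S}, C (v s') * X ^ (σ s')) =
        if s = u then (1 : K) else 0 := by
    intro s hs
    have := sum_sq L (insert u S) σ v ⟨s, hs⟩
    rw [this, hv]
  have h2 := hD (∑ s' : {x // x ∈ insert u S}, C (v s') * X ^ (σ s')) (by
    apply natDegree_sum_le_of_forall_le
    intro s' _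
    exact (natDegree_C_mul_X_pow_le _ _).trans (hσ s' s'.2)) (by
    intro s hs
    rw [h1 s (Finset.mem_insert_of_mem hs), if_neg]
    rintro rfl
    exact hu hs)
  rw [h1 u (Finset.mem_insert_self u S), if_pos rfl] at h2
  exact one_ne_zero h2

lemma R2_of_det {K : Type*} [Field K] {L : Fin m → K} {N j : ℕ} (hjN : j ≤ N)
    {S : Finset (Fin m × Fin (n + 1))} (hS : ∀ s ∈ S, j ≤ (s.2 : ℕ)) (hcard : S.card = N + 1 - j)
    {σ : Fin m × Fin (n + 1) → ℕ} (hσi : Set.InjOn σ (S : Set (Fin m × Fin (n + 1))))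
    (hσ : ∀ s ∈ S, σ s ∈ Finset.Icc j N)
    (hdet : (sqMat L S σ).det ≠ 0) (F : K[X]) (hF0 : F ≠ 0) (hFN : F.natDegree = N) :
    ¬ ∀ s ∈ S, ev (L s.1) (s.2 : ℕ) F = 0 := by
  classical
  intro hall
  have himg : S.image σ = Finset.Icc j N := by
    apply Finset.eq_of_subset_of_card_le
    · intro t ht
      obtain ⟨s, hs, rfl⟩ := Finset.mem_image.mp ht
      exact hσ s hs
    · rw [Finset.card_image_of_injOn hσi, hcard]
      simp
  have hzero : (sqMat L S σ).mulVec (fun s' => F.coeff (σ s')) = 0 := by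
    ext s
    have h1 := hall s s.2
    rw [ev_eq_sum hFN.le] at h1
    have h2 : ∑ t ∈ Finset.range (N + 1), F.coeff t *
        ((t.descFactorial (s.1.2 : ℕ) : K) * L s.1.1 ^ (t - (s.1.2 : ℕ)))
        = ∑ t ∈ Finset.Icc j N, F.coeff t *
        ((t.descFactorial (s.1.2 : ℕ) : K) * L s.1.1 ^ (t - (s.1.2 : ℕ))) := by
      symm
      apply Finset.sum_subset
      · intro t ht
        rw [Finset.mem_Icc] at ht
        rw [Finset.mem_range]
        omega
      · intro t ht ht2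
        rw [Finset.mem_range] at ht
        rw [Finset.mem_Icc] at ht2
        have h3 := hS s s.2
        have h4 : t.descFactorial (s.1.2 : ℕ) = 0 := by
          rw [Nat.descFactorial_eq_zero_iff_lt]
          omega
        rw [h4]
        simp
    rw [h2, ← himg, Finset.sum_image hσi, ← Finset.sum_coe_sort] at h1
    rw [Pi.zero_apply, ← h1, Matrix.mulVec, dotProduct]
    refine Finset.sum_congr rfl fun s' _ => ?_
    rw [sqMat]
    ring
  have hv0 : (fun s' : S => F.coeff (σ s')) = 0 := by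
    by_contra hne
    exact hdet (Matrix.exists_mulVec_eq_zero_iff.mp ⟨_, hne, hzero⟩)
  have hN : N ∈ S.image σ := by
    rw [himg, Finset.mem_Icc]
    exact ⟨hjN, le_rfl⟩
  obtain ⟨s, hs, hsN⟩ := Finset.mem_image.mp hN
  have := congrFun hv0 ⟨s, hs⟩
  simp only [hsN, Pi.zero_apply] at this
  rw [← hFN] at this
  exact hF0 (leadingCoeff_eq_zero.mp this)

theorem generic_formula.{u} {M : Matrix (Fin m) (Fin (n + 1)) ℕ} (hM : IsMultiplicityMatrix M) :
    ∃ Δ : MvPolynomial (Fin m) ℤ, Δ ≠ 0 ∧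
      ∀ (K : Type u) [Field K] [CharZero K] (L : Fin m → K), Function.Injective L →
        MvPolynomial.aeval L Δ ≠ 0 →
        IsLeast {N : ℕ | ∃ F : K[X], F.natDegree = N ∧ Extends M L F} (closedForm M) := by
  classical
  -- matchings for `R1`
  have hm1 : ∀ u ∈ nonzeroSet M, ∃ σ : Fin m × Fin (n + 1) → ℕ,
      Set.InjOn σ ((insert u (zeroSet M) : Finset _) : Set (Fin m × Fin (n + 1))) ∧
      ∀ s ∈ insert u (zeroSet M), σ s ∈ Finset.range (closedForm M + 1) ∧ (s.2 : ℕ) ≤ σ s := by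
    intro u _
    apply hall_interval
    intro s _
    have h1 := hall_insert (M := M) u (s.2 : ℕ) (Nat.lt_succ_iff.mp s.2.2)
    have h2 : (Finset.range (closedForm M + 1)).filter (fun t => (s.2 : ℕ) ≤ t)
        = Finset.Ico (s.2 : ℕ) (closedForm M + 1) := by
      ext t
      simp only [Finset.mem_filter, Finset.mem_range, Finset.mem_Ico]
      tauto
    rw [h2, Nat.card_Ico]
    omega
  choose! σ₁ hσ₁ using hm1
  -- matchings for `R2`
  have hm2 : ∀ N ∈ Finset.Ico n (closedForm M), ∃ (j : ℕ) (S : Finset (Fin m × Fin (n + 1)))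
      (σ : Fin m × Fin (n + 1) → ℕ), j ≤ N ∧ S ⊆ zeroSet M ∧ (∀ s ∈ S, j ≤ (s.2 : ℕ)) ∧
      S.card = N + 1 - j ∧ Set.InjOn σ (S : Set (Fin m × Fin (n + 1))) ∧
      ∀ s ∈ S, σ s ∈ Finset.Icc j N ∧ (s.2 : ℕ) ≤ σ s := by
    intro N hN
    rw [Finset.mem_Ico] at hN
    obtain ⟨j, hj, S, hS1, hS2, hS3, hS4⟩ := exists_tight hN.1 hN.2
    obtain ⟨σ, hσ1, hσ2⟩ := hall_interval S (fun s => (s.2 : ℕ)) (Finset.Icc j N) (by
      intro s hs
      have h1 := hS4 (s.2 : ℕ) (hS2 s hs)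
      have h2 : (Finset.Icc j N).filter (fun t => (s.2 : ℕ) ≤ t) = Finset.Icc (s.2 : ℕ) N := by
        ext t
        simp only [Finset.mem_filter, Finset.mem_Icc]
        have := hS2 s hs
        constructor
        · rintro ⟨⟨_, h⟩, h'⟩; exact ⟨h', h⟩
        · rintro ⟨h, h'⟩; exact ⟨⟨by omega, h'⟩, h⟩
      rw [h2, Nat.card_Icc]
      exact h1)
    exact ⟨j, S, σ, hj.trans hN.1, hS1, hS2, hS3, hσ1, hσ2⟩
  choose! j₂ S₂ σ₂ h₂ using hm2
  refine ⟨(∏ u ∈ nonzeroSet M, (polyMat (insert u (zeroSet M)) (σ₁ u)).det) *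
    ∏ N ∈ Finset.Ico n (closedForm M), (polyMat (S₂ N) (σ₂ N)).det, ?_, ?_⟩
  · apply mul_ne_zero
    · rw [Finset.prod_ne_zero_iff]
      intro u hu
      exact det_ne_zero_of_match _ _ (hσ₁ u hu).1 (fun s hs => ((hσ₁ u hu).2 s hs).2)
    · rw [Finset.prod_ne_zero_iff]
      intro N hN
      obtain ⟨_, _, _, _, h5, h6⟩ := h₂ N hN
      exact det_ne_zero_of_match _ _ h5 (fun s hs => (h6 s hs).2)
  · intro K _ _ L hL hne
    rw [map_mul, map_prod, map_prod] at hne
    have hne1 := Finset.prod_ne_zero_iff.mp (left_ne_zero_of_mul hne)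
    have hne2 := Finset.prod_ne_zero_iff.mp (right_ne_zero_of_mul hne)
    apply closed_of hM hL
    · intro u hu
      have hnz : u ∉ zeroSet M := by
        intro hz
        simp only [nonzeroSet, zeroSet, Finset.mem_filter, Finset.mem_univ, true_and] at hu hz
        exact hz hu
      have h1 := hne1 u hu
      rw [aeval_det] at h1
      exact R1_of_det hnz (fun s hs => Nat.lt_succ_iff.mp
        (Finset.mem_range.mp ((hσ₁ u hu).2 s hs).1)) h1
    · intro F hF0 hF1 hF2 hall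
      have hN : F.natDegree ∈ Finset.Ico n (closedForm M) := Finset.mem_Ico.mpr ⟨hF1, hF2⟩
      obtain ⟨h1, h2, h3, h4, h5, h6⟩ := h₂ _ hN
      have h7 := hne2 _ hN
      rw [aeval_det] at h7
      exact R2_of_det h1 h3 h4 h5 (fun s hs => (h6 s hs).1) h7 F hF0 rfl
        (fun s hs => hall s (h2 hs))

end

end Pool.Agent.Lib.MP_680f50_nt
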