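import Mathlib
import Pool.Agent.Lib.MP_680f50_nt.GenericFormula

set_option autoImplicit false

open Polynomial

namespace Pool.Agent.Lib.MP_680f50_nt

section

variable {K : Type*} [Field K] [CharZero K] {m n : ℕ}

omit [CharZero K] in
lemma iterate_derivative_comp_linear (F : K[X]) (a b : K) (k : ℕ) :
    derivative^[k] (F.comp (C a * X + C b)) =
      C (a ^ k) * (derivative^[k] F).comp (C a * X + C b) := by
  induction k with
  | zero => simp
  | succ k ih =>
    rw [Function.iterate_succ_apply', ih, Function.iterate_succ_apply', derivative_C_mul,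
      derivative_comp]
    simp only [derivative_add, derivative_C_mul, derivative_X, mul_one, derivative_C, add_zero]
    rw [pow_succ, C_mul]
    ring

omit [CharZero K] in
lemma ev_comp_linear (F : K[X]) (a b x : K) (k : ℕ) :
    ev x k (F.comp (C a * X + C b)) = a ^ k * ev (a * x + b) k F := by
  rw [ev_apply, ev_apply, iterate_derivative_comp_linear]
  simp

lemma extends_comp {M : Matrix (Fin m) (Fin (n + 1)) ℕ} (hM : IsMultiplicityMatrix M)
    {L L' : Fin m → K} {a b : K} (ha : a ≠ 0) (hL : ∀ i, L i = a * L' i + b) {F : K[X]}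
    (hF : Extends M L F) : Extends M L' (F.comp (C a * X + C b)) := by
  rw [extends_iff hM] at hF ⊢
  obtain ⟨h0, h1, h2, h3⟩ := hF
  have hdeg : (F.comp (C a * X + C b)).natDegree = F.natDegree := by
    rw [natDegree_comp, natDegree_linear ha, mul_one]
  refine ⟨?_, by rw [hdeg]; exact h1, ?_, ?_⟩
  · intro h
    rw [comp_eq_zero_iff] at h
    rcases h with h | ⟨_, h⟩
    · exact h0 h
    · have := natDegree_linear (b := b) ha
      rw [h, natDegree_C] at this
      exact absurd this (by norm_num)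
  · intro s hs
    rw [ev_comp_linear, ← hL, h2 s hs, mul_zero]
  · intro s hs
    rw [ev_comp_linear, ← hL]
    exact mul_ne_zero (pow_ne_zero _ ha) (h3 s hs)

lemma degrees_eq {M : Matrix (Fin m) (Fin (n + 1)) ℕ} (hM : IsMultiplicityMatrix M)
    {L L' : Fin m → K} {a b : K} (ha : a ≠ 0) (hL : ∀ i, L i = a * L' i + b) :
    {N : ℕ | ∃ F : K[X], F.natDegree = N ∧ Extends M L F} =
    {N : ℕ | ∃ F : K[X], F.natDegree = N ∧ Extends M L' F} := by
  ext N
  constructor
  · rintro ⟨F, hF1, hF2⟩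
    exact ⟨_, by rw [natDegree_comp, natDegree_linear ha, mul_one, hF1], extends_comp hM ha hL hF2⟩
  · rintro ⟨F, hF1, hF2⟩
    have ha' : a⁻¹ ≠ 0 := inv_ne_zero ha
    have hL' : ∀ i, L' i = a⁻¹ * L i + (-(a⁻¹ * b)) := by
      intro i
      rw [hL i]
      field_simp
      ring
    exact ⟨_, by rw [natDegree_comp, natDegree_linear ha', mul_one, hF1],
      extends_comp hM ha' hL' hF2⟩

/-- the standard nodes `0, 1, ...` -/
def stdNodes (K : Type*) [Field K] (m : ℕ) : Fin m → K := fun i => ((i : ℕ) : K)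

lemma det_std (hm : m ≤ 2) (S : Finset (Fin m × Fin (n + 1))) (σ : Fin m × Fin (n + 1) → ℕ)
    (hσ : Set.InjOn σ (S : Set (Fin m × Fin (n + 1))))
    (h0 : ∀ s ∈ S, (s.1 : ℕ) = 0 → σ s = (s.2 : ℕ))
    (h1 : ∀ s ∈ S, (s.2 : ℕ) ≤ σ s) : (sqMat (stdNodes K m) S σ).det ≠ 0 := by
  classical
  intro hdet
  obtain ⟨v, hv, hv2⟩ := Matrix.exists_mulVec_eq_zero_iff.mpr hdet
  apply hv
  have hv0 : ∀ s : S, (s.1.1 : ℕ) = 0 → v s = 0 := by
    intro s hs
    have h2 := congrFun hv2 s
    rw [Matrix.mulVec, dotProduct, Finset.sum_eq_single s] at h2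
    · rw [sqMat, h0 s s.2 hs, Nat.sub_self, pow_zero, mul_one, Nat.descFactorial_self,
        Pi.zero_apply] at h2
      rcases mul_eq_zero.mp h2 with h | h
      · exact absurd h (by exact_mod_cast Nat.factorial_ne_zero _)
      · exact h
    · intro s' _ hne
      have hne' : σ s' ≠ (s.1.2 : ℕ) := by
        intro h
        apply hne
        apply Subtype.ext
        apply hσ s'.2 s.2
        rw [h, h0 s s.2 hs]
      rw [sqMat]
      rcases Nat.lt_or_ge (σ s') (s.1.2 : ℕ) with h | h
      · rw [Nat.descFactorial_of_lt h]; simp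
      · have : σ s' - (s.1.2 : ℕ) ≠ 0 := by omega
        simp [stdNodes, hs, this]
    · intro h; exact absurd (Finset.mem_univ _) h
  -- the second node
  let S1 := S.filter (fun s => (s.1 : ℕ) = 1)
  let B := S1.image (fun s => (s.2 : ℕ))
  let T := S1.image σ
  have hcl : ∀ s : Fin m × Fin (n + 1), (s.1 : ℕ) ≠ 0 → (s.1 : ℕ) = 1 := by
    intro s h
    have := s.1.2
    omega
  have hBinj : Set.InjOn (fun s : Fin m × Fin (n + 1) => (s.2 : ℕ)) (S1 : Set _) := by
    intro a ha b hb hab
    have ha' := (Finset.mem_filter.mp ha).2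
    have hb' := (Finset.mem_filter.mp hb).2
    exact Prod.ext (Fin.ext (ha'.trans hb'.symm)) (Fin.ext hab)
  have hTB : ∀ j, (T.filter (· < j)).card ≤ (B.filter (· < j)).card := by
    intro j
    have e1 : T.filter (· < j) = (S1.filter (fun s => σ s < j)).image σ := Finset.filter_image
    have e2 : (S1.filter (fun s => σ s < j)).image (fun s => (s.2 : ℕ)) ⊆ B.filter (· < j) := by
      intro k hk
      obtain ⟨s, hs, rfl⟩ := Finset.mem_image.mp hk
      have hs' := Finset.mem_filter.mp hs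
      refine Finset.mem_filter.mpr ⟨Finset.mem_image_of_mem _ hs'.1, ?_⟩
      exact lt_of_le_of_lt (h1 s (Finset.mem_filter.mp hs'.1).1) hs'.2
    rw [e1]
    refine le_trans Finset.card_image_le ?_
    rw [← Finset.card_image_of_injOn (f := fun s : Fin m × Fin (n + 1) => (s.2 : ℕ))
      (s := S1.filter (fun s => σ s < j))]
    · exact Finset.card_le_card e2
    · exact hBinj.mono (by intro x hx; exact (Finset.mem_filter.mp hx).1)
  let c : ℕ → K := fun t => ∑ s' : S, if σ s' = t then v s' else 0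
  have hcs : ∀ s' : S, c (σ s') = v s' := by
    intro s'
    simp only [c]
    rw [Finset.sum_eq_single s']
    · simp
    · intro s'' _ hne
      rw [if_neg]
      intro h
      exact hne (Subtype.ext (hσ s''.2 s'.2 h))
    · intro h; exact absurd (Finset.mem_univ _) h
  have hc := pascal_field B T hTB c (by
    intro k hk
    obtain ⟨s, hs, rfl⟩ := Finset.mem_image.mp hk
    obtain ⟨hsS, hs1⟩ := Finset.mem_filter.mp hs
    have h2 := congrFun hv2 ⟨s, hsS⟩
    rw [Matrix.mulVec, dotProduct, Pi.zero_apply] at h2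
    rw [← h2]
    have hS1S : S1 ⊆ S := Finset.filter_subset _ _
    have hsum : ∑ t ∈ T, c t * (t.descFactorial (s.2 : ℕ) : K)
        = ∑ s' ∈ S1, c (σ s') * ((σ s').descFactorial (s.2 : ℕ) : K) :=
      Finset.sum_image (hσ.mono (by exact_mod_cast hS1S))
    rw [hsum]
    have hsum2 : ∑ s' ∈ S1, c (σ s') * ((σ s').descFactorial (s.2 : ℕ) : K)
        = ∑ s' ∈ S, c (σ s') * ((σ s').descFactorial (s.2 : ℕ) : K) := by
      apply Finset.sum_subset hS1S
      intro s' hs' hs'1
      have h3 : (s'.1 : ℕ) = 0 := by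
        by_contra h
        exact hs'1 (Finset.mem_filter.mpr ⟨hs', hcl s' h⟩)
      have h4 := hcs ⟨s', hs'⟩
      simp only at h4
      rw [h4, hv0 ⟨s', hs'⟩ h3, zero_mul]
    rw [hsum2, ← Finset.sum_coe_sort]
    refine Finset.sum_congr rfl fun s' _ => ?_
    rw [hcs, sqMat, mul_comm]
    simp [stdNodes, hs1])
  ext s
  rw [Pi.zero_apply]
  by_cases hs : (s.1.1 : ℕ) = 0
  · exact hv0 s hs
  · rw [← hcs s]
    exact hc _ (Finset.mem_image_of_mem _ (Finset.mem_filter.mpr ⟨s.2, hcl _ hs⟩))

omit [CharZero K] in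
lemma match_std (S : Finset (Fin m × Fin (n + 1))) (T : Finset ℕ)
    (hST : ∀ s ∈ S, (s.2 : ℕ) ∈ T)
    (hall : ∀ s ∈ S, (S.filter (fun s' => (s.2 : ℕ) ≤ (s'.2 : ℕ))).card ≤
      (T.filter (fun t => (s.2 : ℕ) ≤ t)).card) :
    ∃ σ : Fin m × Fin (n + 1) → ℕ, Set.InjOn σ (S : Set (Fin m × Fin (n + 1))) ∧
      (∀ s ∈ S, (s.1 : ℕ) = 0 → σ s = (s.2 : ℕ)) ∧ ∀ s ∈ S, σ s ∈ T ∧ (s.2 : ℕ) ≤ σ s := by
  classical
  let S0 := S.filter (fun s => (s.1 : ℕ) = 0)
  let S1 := S.filter (fun s => ¬ (s.1 : ℕ) = 0)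
  let A := S0.image (fun s => (s.2 : ℕ))
  have hAT : A ⊆ T := by
    intro k hk
    obtain ⟨s, hs, rfl⟩ := Finset.mem_image.mp hk
    exact hST s (Finset.mem_filter.mp hs).1
  obtain ⟨σ, hσ1, hσ2⟩ := hall_interval S1 (fun s => (s.2 : ℕ)) (T \ A) (by
    intro s hs
    have hsS := (Finset.mem_filter.mp hs).1
    have h1 := hall s hsS
    have e1 : (S.filter (fun s' => (s.2 : ℕ) ≤ (s'.2 : ℕ))).card =
        (S0.filter (fun s' => (s.2 : ℕ) ≤ (s'.2 : ℕ))).card +
        (S1.filter (fun s' => (s.2 : ℕ) ≤ (s'.2 : ℕ))).card := by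
      simp only [S0, S1]
      rw [Finset.filter_comm, Finset.filter_comm (p := fun s' : Fin m × Fin (n + 1) => ¬ (s'.1 : ℕ) = 0)]
      exact (Finset.card_filter_add_card_filter_not _).symm
    have e2 : (A.filter (fun t => (s.2 : ℕ) ≤ t)).card =
        (S0.filter (fun s' => (s.2 : ℕ) ≤ (s'.2 : ℕ))).card := by
      have : A.filter (fun t => (s.2 : ℕ) ≤ t) =
          (S0.filter (fun s' => (s.2 : ℕ) ≤ (s'.2 : ℕ))).image (fun s => (s.2 : ℕ)) :=
        Finset.filter_image
      rw [this]
      apply Finset.card_image_of_injOn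
      intro a ha b hb hab
      have ha' := (Finset.mem_filter.mp (Finset.mem_filter.mp ha).1).2
      have hb' := (Finset.mem_filter.mp (Finset.mem_filter.mp hb).1).2
      exact Prod.ext (Fin.ext (ha'.trans hb'.symm)) (Fin.ext hab)
    have e3 : (T.filter (fun t => (s.2 : ℕ) ≤ t)).card =
        (A.filter (fun t => (s.2 : ℕ) ≤ t)).card +
        ((T \ A).filter (fun t => (s.2 : ℕ) ≤ t)).card := by
      rw [← Finset.card_union_of_disjoint]
      · congr 1
        ext t
        simp only [Finset.mem_filter, Finset.mem_union, Finset.mem_sdiff]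
        constructor
        · rintro ⟨h, h'⟩
          by_cases hA : t ∈ A
          · exact Or.inl ⟨hA, h'⟩
          · exact Or.inr ⟨⟨h, hA⟩, h'⟩
        · rintro (⟨h, h'⟩ | ⟨⟨h, _⟩, h'⟩)
          · exact ⟨hAT h, h'⟩
          · exact ⟨h, h'⟩
      · rw [Finset.disjoint_left]
        intro t h h'
        exact (Finset.mem_sdiff.mp (Finset.mem_filter.mp h').1).2 (Finset.mem_filter.mp h).1
    omega)
  refine ⟨fun s => if (s.1 : ℕ) = 0 then (s.2 : ℕ) else σ s, ?_, ?_, ?_⟩
  · intro a ha b hb hab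
    rw [Finset.mem_coe] at ha hb
    by_cases ha0 : (a.1 : ℕ) = 0 <;> by_cases hb0 : (b.1 : ℕ) = 0
    · simp only [if_pos ha0, if_pos hb0] at hab
      exact Prod.ext (Fin.ext (ha0.trans hb0.symm)) (Fin.ext hab)
    · simp only [if_pos ha0, if_neg hb0] at hab
      have h1 := (Finset.mem_sdiff.mp (hσ2 b (Finset.mem_filter.mpr ⟨hb, hb0⟩)).1).2
      rw [← hab] at h1
      exact absurd (Finset.mem_image_of_mem (fun s : Fin m × Fin (n + 1) => (s.2 : ℕ))
        (Finset.mem_filter.mpr ⟨ha, ha0⟩ : a ∈ S0)) h1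
    · simp only [if_neg ha0, if_pos hb0] at hab
      have h1 := (Finset.mem_sdiff.mp (hσ2 a (Finset.mem_filter.mpr ⟨ha, ha0⟩)).1).2
      rw [hab] at h1
      exact absurd (Finset.mem_image_of_mem (fun s : Fin m × Fin (n + 1) => (s.2 : ℕ))
        (Finset.mem_filter.mpr ⟨hb, hb0⟩ : b ∈ S0)) h1
    · simp only [if_neg ha0, if_neg hb0] at hab
      exact hσ1 (Finset.mem_filter.mpr ⟨ha, ha0⟩) (Finset.mem_filter.mpr ⟨hb, hb0⟩) hab
  · intro s _ h0
    simp only [if_pos h0]
  · intro s hs
    by_cases h0 : (s.1 : ℕ) = 0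
    · simp only [if_pos h0]
      exact ⟨hST s hs, le_rfl⟩
    · simp only [if_neg h0]
      have := hσ2 s (Finset.mem_filter.mpr ⟨hs, h0⟩)
      exact ⟨(Finset.mem_sdiff.mp this.1).1, this.2⟩

theorem two_node_formula {M : Matrix (Fin m) (Fin (n + 1)) ℕ} (hM : IsMultiplicityMatrix M)
    (hm : m ≤ 2) (L : Fin m → K) (hL : Function.Injective L) :
    IsLeast {N : ℕ | ∃ F : K[X], F.natDegree = N ∧ Extends M L F} (closedForm M) := by
  classical
  -- reduction to the standard nodes
  obtain ⟨a, b, ha, hab⟩ : ∃ a b : K, a ≠ 0 ∧ ∀ i, L i = a * stdNodes K m i + b := by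
    rcases Nat.lt_or_ge m 2 with h | h
    · refine ⟨1, if h : 0 < m then L ⟨0, h⟩ else 0, one_ne_zero, ?_⟩
      intro i
      have hi : i = ⟨0, i.pos⟩ := by
        apply Fin.ext
        have := i.2
        simp only
        omega
      rw [dif_pos i.pos]
      rw [hi]
      simp [stdNodes]
    · have hm2 : m = 2 := le_antisymm hm h
      subst hm2
      refine ⟨L 1 - L 0, L 0, ?_, ?_⟩
      · intro h
        have := hL (sub_eq_zero.mp h)
        exact absurd this (by decide)
      · intro i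
        fin_cases i
        · simp [stdNodes]
        · simp [stdNodes]
  rw [degrees_eq hM ha hab]
  have hstd : Function.Injective (stdNodes K m) := by
    intro i j hij
    simp only [stdNodes] at hij
    exact Fin.ext (Nat.cast_injective hij)
  apply closed_of hM hstd
  · intro u hu
    have hnz : u ∉ zeroSet M := by
      intro hz
      simp only [nonzeroSet, zeroSet, Finset.mem_filter, Finset.mem_univ, true_and] at hu hz
      exact hz hu
    have hncl : n ≤ closedForm M := by
      have : n + tailCount M n ≤ closedForm M :=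
        Finset.le_sup (f := fun j => j + tailCount M j) (Finset.mem_range.mpr (Nat.lt_succ_self n))
      omega
    obtain ⟨σ, h1, h2, h3⟩ := match_std (insert u (zeroSet M))
      (Finset.range (closedForm M + 1)) (by
        intro s _
        rw [Finset.mem_range]
        have := s.2.2
        omega) (by
        intro s _
        have h1 := hall_insert (M := M) u (s.2 : ℕ) (Nat.lt_succ_iff.mp s.2.2)
        have h2 : (Finset.range (closedForm M + 1)).filter (fun t => (s.2 : ℕ) ≤ t)
            = Finset.Ico (s.2 : ℕ) (closedForm M + 1) := by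
          ext t
          simp only [Finset.mem_filter, Finset.mem_range, Finset.mem_Ico]
          tauto
        rw [h2, Nat.card_Ico]
        omega)
    exact R1_of_det hnz (fun s hs => Nat.lt_succ_iff.mp (Finset.mem_range.mp (h3 s hs).1))
      (det_std hm _ σ h1 h2 (fun s hs => (h3 s hs).2))
  · intro F hF0 hF1 hF2 hall
    obtain ⟨j, hj, S, hS1, hS2, hS3, hS4⟩ := exists_tight hF1 hF2
    obtain ⟨σ, h1, h2, h3⟩ := match_std S (Finset.Icc j F.natDegree) (by
      intro s hs
      rw [Finset.mem_Icc]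
      have := s.2.2
      exact ⟨hS2 s hs, by omega⟩) (by
      intro s hs
      have h1 := hS4 (s.2 : ℕ) (hS2 s hs)
      have h2 : (Finset.Icc j F.natDegree).filter (fun t => (s.2 : ℕ) ≤ t) =
          Finset.Icc (s.2 : ℕ) F.natDegree := by
        ext t
        simp only [Finset.mem_filter, Finset.mem_Icc]
        have := hS2 s hs
        constructor
        · rintro ⟨⟨_, h⟩, h'⟩; exact ⟨h', h⟩
        · rintro ⟨h, h'⟩; exact ⟨⟨by omega, h'⟩, h⟩
      rw [h2, Nat.card_Icc]
      exact h1)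
    exact R2_of_det (hj.trans hF1) hS2 hS3 h1 (fun s hs => (h3 s hs).1)
      (det_std hm S σ h1 h2 (fun s hs => (h3 s hs).2)) F hF0 rfl (fun s hs => hall s (hS1 hs))

end

end Pool.Agent.Lib.MP_680f50_nt
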